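import Mathlib
import Pool.Agent.ZF.Net
import Pool.Agent.Q1.Outer
import Pool.Agent.H75.Perc.Dom

set_option autoImplicit false
open Finset Polynomial

/-! # (ALT) implies zero-freeness: definitions (MP_fe58d8_pr, notes 1635, 1645, 1650, 1653)

States are the sets `w` of labels with `A ⊆ w ⊆ C` (`w` = open labels, `C \ A` = random labels). `Kw w` is
the number of quarter turns of the path from the root corner `c0` to the corner `c`; `Z` is the partition
function (polynomial in `X`, one `X` for a full turn). Only minors 'fix one label' are used. -/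

namespace Pool.Agent.ZM

open Pool.Agent.H75.Perc Pool.Agent.H75.TwoArm Pool.Agent.H69.Q1 Pool.Agent.Q1 Pool.Agent.ZF
open Pool.Agent.H75.TwoArm.StrandAux hiding vx_nxC

/-! ### The plane class -/

/-- all labels between `A` and `C` are in a plane environment of the root `c0` -/
structure PN (c0 c : ℤ × ℤ) (A C : Finset (ℤ × ℤ)) : Prop where
  hAC : A ⊆ C
  odd : ∀ e ∈ C, (e.1 + e.2) % 2 = 1
  hne : c ≠ c0
  out : ∃ g : ℤ × ℤ, DCo C (fi c0) g ∧ ∀ v, Co C (vx c0) v → g.2 < v.2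

variable {c0 c : ℤ × ℤ} {A C A' C' : Finset (ℤ × ℤ)}

lemma PN.sub (h : PN c0 c A C) (h1 : A' ⊆ C') (h2 : C' ⊆ C) : PN c0 c A' C' := by
  obtain ⟨g, hg1, hg2⟩ := h.out
  exact ⟨h1, fun e he => h.odd e (h2 he), h.hne, g, hg1.anti h2, fun v hv => hg2 v (hv.mono h2)⟩

lemma PN.left (h : PN c0 c A C) {v : ℤ × ℤ} (hv : v ∈ C \ A) : PN c0 c (insert v A) C :=
  h.sub (insert_subset (mem_sdiff.1 hv).1 h.hAC) (Subset.refl _)

lemma PN.right (h : PN c0 c A C) {v : ℤ × ℤ} (hv : v ∈ C \ A) : PN c0 c A (C.erase v) :=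
  h.sub (subset_erase.2 ⟨h.hAC, (mem_sdiff.1 hv).2⟩) (erase_subset _ _)

/-- total turning of the loop of the root -/
lemma PN.tot (h : PN c0 c A C) {w : Finset (ℤ × ℤ)} (hw : w ⊆ C) {L : ℕ} (hL : Orb (nx w) c0 L) :
    KK (nx w) (H75.Perc.del w) c0 0 L = 4 := by
  obtain ⟨g, hg1, hg2⟩ := h.out
  simpa using total_outer (hg1.anti hw) (fun v hv => hg2 v (hv.mono hw)) hL 0

/-- index of the path from `c0` to `c` in the state `w` -/
noncomputable def Kw (c0 c : ℤ × ℤ) (w : Finset (ℤ × ℤ)) : Option ℤ :=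
  idx (nx w) (H75.Perc.del w) c0 c

/-- the monomial of an index -/
noncomputable def mon (M : ℤ) : Option ℤ → ℝ[X]
  | none => 0
  | some k => X ^ ((k + M) / 4).toNat

/-- **partition function** -/
noncomputable def Z (c0 c : ℤ × ℤ) (t : ℤ × ℤ → ℝ) (M : ℤ) (A C : Finset (ℤ × ℤ)) : ℝ[X] :=
  ∑ w ∈ Icc A C, Polynomial.C (∏ e ∈ w, t e) * mon M (Kw c0 c w)

/-- `M` is an admissible shift of the exponents -/
def Sh (c0 c : ℤ × ℤ) (M : ℤ) (A C : Finset (ℤ × ℤ)) : Prop :=
  ∀ w ∈ Icc A C, ∀ k, Kw c0 c w = some k → 0 ≤ k + M ∧ (4 : ℤ) ∣ k + M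

lemma Sh.sub {M : ℤ} (h : Sh c0 c M A C) (h1 : A ⊆ A') (h2 : C' ⊆ C) : Sh c0 c M A' C' := by
  intro w hw k hk
  rw [mem_Icc] at hw
  exact h w (mem_Icc.2 ⟨h1.trans hw.1, hw.2.trans h2⟩) k hk

/-- `x` is the first random label on the strand which leaves `c0` -/
def FirstO (c0 c : ℤ × ℤ) (A C : Finset (ℤ × ℤ)) (x : ℤ × ℤ) : Prop :=
  x ∈ C \ A ∧ ∃ n, lab ((nx A)^[n] c0) = x ∧ ∀ i < n, lab ((nx A)^[i] c0) ∉ C \ A ∧
    (nx A)^[i + 1] c0 ≠ c0 ∧ (nx A)^[i + 1] c0 ≠ c

/-- `z` is the first random label on the strand which enters `c`, followed backwards -/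
def FirstI (c0 c : ℤ × ℤ) (A C : Finset (ℤ × ℤ)) (z : ℤ × ℤ) : Prop :=
  z ∈ C \ A ∧ ∃ n, plab ((pv A)^[n] c) = z ∧ ∀ i < n, plab ((pv A)^[i] c) ∉ C \ A ∧
    (pv A)^[i + 1] c ≠ c0 ∧ (pv A)^[i + 1] c ≠ c

/-- **(ALT)**, the hypothesis of the main theorem: coefficientwise in `X`, all positive weights.
`x` = first random label from the root (natural colour open), `z` = last random label before
`c` (natural colour closed). -/
def ALTHyp : Prop := ∀ (c0 c : ℤ × ℤ) (A C : Finset (ℤ × ℤ)), PN c0 c A C →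
  ∀ x z, FirstO c0 c A C x → FirstI c0 c A C z → x ≠ z →
  ∀ t : ℤ × ℤ → ℝ, (∀ e, 0 < t e) → ∀ M : ℤ, Sh c0 c M A C → ∀ k : ℕ,
  0 ≤ (-1 : ℝ) ^ (k + 1) *
    (Z c0 c t M (insert x A) (C.erase z) * Z c0 c t M (insert z A) (C.erase x) -
      Z c0 c t M (insert z (insert x A)) C * Z c0 c t M A ((C.erase x).erase z)).coeff k

/-- the opposite state -/
def cpl (A C P : Finset (ℤ × ℤ)) : Finset (ℤ × ℤ) := A ∪ (C \ P)

/-- the pairs `(P, opposite of P)` of alive states with `x` open in `P` and sum of the indices `s`;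
`g = true`: the pairs with the good sign, i.e. `z` is closed in `P` iff the number of full turns of `P`
minus the number of full turns of the opposite state is odd. -/
noncomputable def prs (c0 c : ℤ × ℤ) (A C : Finset (ℤ × ℤ)) (x z : ℤ × ℤ) (s : ℤ) (g : Prop) :
    Finset (Finset (ℤ × ℤ)) := by
  classical exact (Icc A C).filter (fun P => x ∈ P ∧ ∃ k l : ℤ, Kw c0 c P = some k ∧
    Kw c0 c (cpl A C P) = some l ∧ k + l = s ∧ ((z ∉ P ↔ ¬ (8 : ℤ) ∣ k - l) ↔ g))

/-- **(ALT), counting form**: among the pairs (`P`, opposite of `P`) of alive states with a given sum of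
the indices at least half have the good sign. (All labels of `C \ A` are opposite; the common labels of the
two states are in `A` or outside `C`.) -/
def ALTCount : Prop := ∀ (c0 c : ℤ × ℤ) (A C : Finset (ℤ × ℤ)), PN c0 c A C →
  ∀ x z, FirstO c0 c A C x → FirstI c0 c A C z → x ≠ z → ∀ s : ℤ,
  (prs c0 c A C x z s False).card ≤ (prs c0 c A C x z s True).card

/-! ### Real-rooted polynomials with nonnegative coefficients, interlacing -/

/-- coefficients `≥ 0`, real-rooted (or zero) -/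
def R0 (P : ℝ[X]) : Prop := (∀ n, 0 ≤ P.coeff n) ∧ P.Splits

/-- number of roots in `(-r, 0]` -/
noncomputable def nr (P : ℝ[X]) (r : ℝ) : ℕ := (P.roots.filter (fun s => -r < s)).card

/-- `P` interlaces `Q` -/
def IL (P Q : ℝ[X]) : Prop := R0 P ∧ R0 Q ∧ (P ≠ 0 → Q ≠ 0 → ∀ r : ℝ, 0 < r →
  nr Q r ≤ nr P r ∧ nr P r ≤ nr Q r + 1)

/-! ### The induction statement -/

/-- all alive states have the same index -/
def Konst (c0 c : ℤ × ℤ) (A C : Finset (ℤ × ℤ)) : Prop :=
  ∃ k : ℤ, ∀ w ∈ Icc A C, ∀ l, Kw c0 c w = some l → l = k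

/-- real-rootedness and the two monotonicity statements (natural colour: open for the strand which
leaves `c0`, closed for the strand which enters `c`) -/
def St (c0 c : ℤ × ℤ) (t : ℤ × ℤ → ℝ) (M : ℤ) (A C : Finset (ℤ × ℤ)) : Prop :=
  R0 (Z c0 c t M A C) ∧
  (∀ x, FirstO c0 c A C x → IL (Z c0 c t M (insert x A) C) (Z c0 c t M A (C.erase x))) ∧
  (∀ z, FirstI c0 c A C z → IL (Z c0 c t M A (C.erase z)) (Z c0 c t M (insert z A) C))

end Pool.Agent.ZM
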