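import Mathlib
import Pool.Agent.ZM.Def
import Pool.Agent.ZF.Box

set_option autoImplicit false
open Finset

/-! # Legs (note 1668)

The strand which leaves `c0` and the strand which enters `c`, up to the first random label. -/

namespace Pool.Agent.ZM

open Pool.Agent.H75.Perc Pool.Agent.H75.TwoArm Pool.Agent.H75.Four Pool.Agent.H69.Q1 Pool.Agent.Q1
open Pool.Agent.ZF
open Pool.Agent.H75.TwoArm.StrandAux hiding vx_nxC
open Pool.Agent.H75.Four.FOtherAux

variable {c0 c x z v a : ℤ × ℤ} {A C w w' : Finset (ℤ × ℤ)} {n m N : ℕ}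

/-! ### Paths in two states -/

lemma nx_path (h : ∀ i < n, (lab ((nx w)^[i] c0) ∈ w ↔ lab ((nx w)^[i] c0) ∈ w')) :
    ∀ i ≤ n, (nx w')^[i] c0 = (nx w)^[i] c0 := by
  intro i
  induction i with
  | zero => intro _; rfl
  | succ i ih =>
    intro hi
    rw [Function.iterate_succ_apply', Function.iterate_succ_apply', ih (by omega)]
    exact (nx_eq_of_iff (h i (by omega))).symm

lemma pv_path (h : ∀ i < n, (plab ((pv w)^[i] c) ∈ w ↔ plab ((pv w)^[i] c) ∈ w')) :
    ∀ i ≤ n, (pv w')^[i] c = (pv w)^[i] c := by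
  intro i
  induction i with
  | zero => intro _; rfl
  | succ i ih =>
    intro hi
    rw [Function.iterate_succ_apply', Function.iterate_succ_apply', ih (by omega)]
    exact (pv_eq_of_iff (h i (by omega))).symm

/-- labels which are not random -/
lemma iff_w (hw : w ∈ Icc A C) {e : ℤ × ℤ} (he : e ∉ C \ A) : e ∈ A ↔ e ∈ w := by
  rw [mem_Icc] at hw
  rw [mem_sdiff, not_and_not_right] at he
  exact ⟨fun h => hw.1 h, fun h => he (hw.2 h)⟩

/-- the path to `c` followed backwards -/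
lemma hits_pv (h : Hits (nx w) c0 c N) : ∀ j ≤ N, (pv w)^[j] c = (nx w)^[N - j] c0 := by
  intro j
  induction j with
  | zero => intro _; exact h.2.1.symm
  | succ j ih =>
    intro hj
    rw [Function.iterate_succ_apply', ih (by omega), show N - j = (N - (j + 1)) + 1 by omega,
      Function.iterate_succ_apply', pv_nx]

lemma lab_pv_iter (w : Finset (ℤ × ℤ)) (c : ℤ × ℤ) (j : ℕ) :
    lab ((pv w)^[j + 1] c) = plab ((pv w)^[j] c) := by
  rw [Function.iterate_succ_apply', lab_pv]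

lemma nxO_ne (a : ℤ × ℤ) : nxO a ≠ nxC a := by
  intro h
  rw [nxC_eq_nxO] at h
  have h1 : nx {lab a} a = nx {lab a} (opc a) := by
    rw [nx_of_in (by simp), nx_of_in (by rw [lab_opc]; simp), h]
  exact opc_ne a (nx_injective _ h1).symm

/-- states which differ exactly at the label of `a` -/
lemma swapped_flip (h : ∀ e, e ≠ lab a → (e ∈ w ↔ e ∈ w')) (ha : lab a ∈ w ↔ lab a ∉ w') :
    Swapped (nx w) (nx w') a (opc a) := by
  have hO : nxC (opc a) = nxO a := by rw [nxC_eq_nxO, opc_opc]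
  have hl := lab_opc a
  refine ⟨?_, ?_, fun z h1 h2 => ?_⟩
  · by_cases h1 : lab a ∈ w
    · rw [nx_of_out (ha.1 h1), nx_of_in (by rw [hl]; exact h1), nxC_eq_nxO]
    · rw [nx_of_in (not_not.1 fun h2 => h1 (ha.2 h2)), nx_of_out (by rw [hl]; exact h1), hO]
  · by_cases h1 : lab a ∈ w
    · rw [nx_of_out (by rw [hl]; exact ha.1 h1), nx_of_in h1, hO]
    · rw [nx_of_in (by rw [hl]; exact not_not.1 fun h2 => h1 (ha.2 h2)), nx_of_out h1, nxC_eq_nxO]
  · refine (nx_eq_of_iff (h _ fun h3 => ?_)).symm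
    rcases lab_eq_iff.1 h3 with h4 | h4
    · exact h1 h4
    · exact h2 h4

/-! ### Uniqueness and sub-cubes -/

lemma FirstO.mem (h : FirstO c0 c A C x) : x ∈ C \ A := h.1

lemma FirstI.mem (h : FirstI c0 c A C z) : z ∈ C \ A := h.1

theorem FirstO.uniq {x' : ℤ × ℤ} (h : FirstO c0 c A C x) (h' : FirstO c0 c A C x') : x = x' := by
  obtain ⟨h1, n, h2, h3⟩ := h
  obtain ⟨h1', n', h2', h3'⟩ := h'
  rcases lt_trichotomy n n' with h4 | rfl | h4
  · exact absurd (by rw [h2]; exact h1) (h3' n h4).1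
  · rw [← h2, ← h2']
  · exact absurd (by rw [h2']; exact h1') (h3 n' h4).1

theorem FirstI.uniq {z' : ℤ × ℤ} (h : FirstI c0 c A C z) (h' : FirstI c0 c A C z') : z = z' := by
  obtain ⟨h1, n, h2, h3⟩ := h
  obtain ⟨h1', n', h2', h3'⟩ := h'
  rcases lt_trichotomy n n' with h4 | rfl | h4
  · exact absurd (by rw [h2]; exact h1) (h3' n h4).1
  · rw [← h2, ← h2']
  · exact absurd (by rw [h2']; exact h1') (h3 n' h4).1

lemma ins_iff (hv : v ∈ C \ A) {e : ℤ × ℤ} (he : e ∉ C \ A) : e ∈ A ↔ e ∈ insert v A := by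
  rw [mem_insert]
  exact ⟨Or.inr, fun h => h.resolve_left fun h1 => he (h1 ▸ hv)⟩

theorem FirstO.left (h : FirstO c0 c A C x) (hv : v ∈ C \ A) (hx : v ≠ x) :
    FirstO c0 c (insert v A) C x := by
  obtain ⟨h1, n, h2, h3⟩ := h
  have h4 := nx_path (w := A) (w' := insert v A) (c0 := c0) (n := n)
    fun i hi => ins_iff hv (h3 i hi).1
  rw [mem_sdiff] at h1
  refine ⟨mem_sdiff.2 ⟨h1.1, fun h5 => ?_⟩, n, by rw [h4 n le_rfl]; exact h2, fun i hi => ?_⟩
  · rcases mem_insert.1 h5 with h6 | h6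
    · exact hx h6.symm
    · exact h1.2 h6
  · rw [h4 i hi.le, h4 (i + 1) hi]
    refine ⟨fun h5 => (h3 i hi).1 ?_, (h3 i hi).2⟩
    rw [mem_sdiff, mem_insert, not_or] at h5
    exact mem_sdiff.2 ⟨h5.1, h5.2.2⟩

theorem FirstI.left (h : FirstI c0 c A C z) (hv : v ∈ C \ A) (hz : v ≠ z) :
    FirstI c0 c (insert v A) C z := by
  obtain ⟨h1, n, h2, h3⟩ := h
  have h4 := pv_path (w := A) (w' := insert v A) (c := c) (n := n)
    fun i hi => ins_iff hv (h3 i hi).1
  rw [mem_sdiff] at h1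
  refine ⟨mem_sdiff.2 ⟨h1.1, fun h5 => ?_⟩, n, by rw [h4 n le_rfl]; exact h2, fun i hi => ?_⟩
  · rcases mem_insert.1 h5 with h6 | h6
    · exact hz h6.symm
    · exact h1.2 h6
  · rw [h4 i hi.le, h4 (i + 1) hi]
    refine ⟨fun h5 => (h3 i hi).1 ?_, (h3 i hi).2⟩
    rw [mem_sdiff, mem_insert, not_or] at h5
    exact mem_sdiff.2 ⟨h5.1, h5.2.2⟩

theorem FirstO.right (h : FirstO c0 c A C x) (hx : v ≠ x) : FirstO c0 c A (C.erase v) x := by
  obtain ⟨h1, n, h2, h3⟩ := h
  rw [mem_sdiff] at h1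
  refine ⟨mem_sdiff.2 ⟨mem_erase.2 ⟨hx.symm, h1.1⟩, h1.2⟩, n, h2, fun i hi => ⟨fun h4 => ?_, (h3 i hi).2⟩⟩
  rw [mem_sdiff, mem_erase] at h4
  exact (h3 i hi).1 (mem_sdiff.2 ⟨h4.1.2, h4.2⟩)

theorem FirstI.right (h : FirstI c0 c A C z) (hz : v ≠ z) : FirstI c0 c A (C.erase v) z := by
  obtain ⟨h1, n, h2, h3⟩ := h
  rw [mem_sdiff] at h1
  refine ⟨mem_sdiff.2 ⟨mem_erase.2 ⟨hz.symm, h1.1⟩, h1.2⟩, n, h2, fun i hi => ⟨fun h4 => ?_, (h3 i hi).2⟩⟩
  rw [mem_sdiff, mem_erase] at h4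
  exact (h3 i hi).1 (mem_sdiff.2 ⟨h4.1.2, h4.2⟩)

/-! ### Legs without a random label -/

/-- the strand which leaves `c0` is the same in all states -/
lemma konst_out {T : ℕ} (h1 : (nx A)^[T] c0 = c0 ∨ (nx A)^[T] c0 = c) (hT : 0 < T)
    (h2 : ∀ i < T, lab ((nx A)^[i] c0) ∉ C \ A)
    (h3 : ∀ i, 0 < i → i < T → (nx A)^[i] c0 ≠ c0 ∧ (nx A)^[i] c0 ≠ c) : Konst c0 c A C := by
  refine ⟨∑ j ∈ range T, H75.Perc.del A ((nx A)^[j] c0), fun w hw l hl => ?_⟩
  obtain ⟨N, ⟨h4, h5, h6⟩, rfl⟩ := idx_eq_some.1 hl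
  have hp := nx_path (w := A) (w' := w) (c0 := c0) (n := T) fun i hi => iff_w hw (h2 i hi)
  have hN : N = T := by
    rcases lt_trichotomy N T with h7 | h7 | h7
    · rw [hp N h7.le] at h5
      exact absurd h5 (h3 N h4 h7).2
    · exact h7
    · have := h6 T hT h7
      rw [hp T le_rfl] at this
      rcases h1 with h1 | h1
      · exact absurd h1 this.1
      · exact absurd h1 this.2
  subst hN
  refine sum_congr rfl fun j hj => ?_
  rw [mem_range] at hj
  rw [hp j hj.le]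
  exact (del_eq_of_iff (iff_w hw (h2 j hj))).symm

/-- the strand which enters `c` is the same in all states -/
lemma konst_in {T : ℕ} (h1 : (pv A)^[T] c = c0 ∨ (pv A)^[T] c = c) (hT : 0 < T)
    (h2 : ∀ i < T, plab ((pv A)^[i] c) ∉ C \ A)
    (h3 : ∀ i, 0 < i → i < T → (pv A)^[i] c ≠ c0 ∧ (pv A)^[i] c ≠ c) : Konst c0 c A C := by
  refine ⟨∑ j ∈ range T, H75.Perc.del A ((pv A)^[j + 1] c), fun w hw l hl => ?_⟩
  obtain ⟨N, hH, rfl⟩ := idx_eq_some.1 hl
  have hr := hits_pv hH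
  obtain ⟨h4, h5, h6⟩ := hH
  have hp := pv_path (w := A) (w' := w) (c := c) (n := T) fun i hi => iff_w hw (h2 i hi)
  have hN : N = T := by
    rcases lt_trichotomy N T with h7 | h7 | h7
    · have h8 := hr N le_rfl
      rw [hp N h7.le, Nat.sub_self] at h8
      exact absurd h8 (h3 N h4 h7).1
    · exact h7
    · have := h6 (N - T) (by omega) (by omega)
      rw [← hr T h7.le, hp T le_rfl] at this
      rcases h1 with h1 | h1
      · exact absurd h1 this.1
      · exact absurd h1 this.2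
  subst hN
  rw [← sum_range_reflect]
  refine sum_congr rfl fun j hj => ?_
  rw [mem_range] at hj
  have h7 : (nx w)^[N - 1 - j] c0 = (pv A)^[j + 1] c := by
    rw [← hp (j + 1) hj, hr (j + 1) hj]
    congr 1
    omega
  rw [h7]
  refine (del_eq_of_iff (iff_w hw ?_)).symm
  rw [lab_pv_iter]
  exact h2 j hj

lemma orb_PS (hAC : A ⊆ C) (c : ℤ × ℤ) : ∃ L, Orb (nx A) c L :=
  exists_orb (nx A) (nx_injective A) (PS C (vx c)) (fun _ h => PS_nx hAC h) c
    (mem_PS.2 (mem_insert_self _ _))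

lemma exists_first {f : ℤ × ℤ → ℤ × ℤ} {R : ℤ × ℤ → Prop} {s : ℤ × ℤ}
    (hex : ∃ T, 0 < T ∧ (f^[T] s = c0 ∨ f^[T] s = c))
    (hK : ∀ T, (f^[T] s = c0 ∨ f^[T] s = c) → 0 < T → (∀ i < T, ¬ R (f^[i] s)) →
      (∀ i, 0 < i → i < T → f^[i] s ≠ c0 ∧ f^[i] s ≠ c) → False) :
    ∃ n, R (f^[n] s) ∧ ∀ i < n, ¬ R (f^[i] s) ∧ f^[i + 1] s ≠ c0 ∧ f^[i + 1] s ≠ c := by
  classical
  obtain ⟨hT, hT1⟩ := Nat.find_spec hex
  have hT2 : ∀ i, 0 < i → i < Nat.find hex → f^[i] s ≠ c0 ∧ f^[i] s ≠ c := by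
    intro i h1 h2
    have := Nat.find_min hex h2
    rw [not_and, not_or] at this
    exact this h1
  have hi : ∃ i, i < Nat.find hex ∧ R (f^[i] s) := by
    by_contra h1
    exact hK _ hT1 hT (fun i hi h2 => h1 ⟨i, hi, h2⟩) hT2
  have h2 := (Nat.find_spec hi).1
  exact ⟨Nat.find hi, (Nat.find_spec hi).2, fun i h1 =>
    ⟨fun h3 => Nat.find_min hi h1 ⟨by omega, h3⟩, hT2 (i + 1) (by omega) (by omega)⟩⟩

/-- **Either all alive states have the same index, or both legs have a first random label.** -/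
theorem konst_or (h : PN c0 c A C) :
    Konst c0 c A C ∨ ∃ x z, FirstO c0 c A C x ∧ FirstI c0 c A C z := by
  by_cases hK : Konst c0 c A C
  · exact Or.inl hK
  obtain ⟨L, hL⟩ := orb_PS h.hAC c0
  obtain ⟨n, h1, h2⟩ := exists_first (f := nx A) (R := fun a => lab a ∈ C \ A) (s := c0) (c0 := c0)
    (c := c) ⟨L, hL.pos, Or.inl hL.per⟩ fun T h1 h2 h3 h4 => hK (konst_out h1 h2 h3 h4)
  obtain ⟨L', hL'⟩ := orb_PS h.hAC c
  have hper : (pv A)^[L'] c = c := by
    conv_lhs => rw [← hL'.per]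
    exact Function.LeftInverse.iterate (pv_nx A) L' c
  obtain ⟨m, h3, h4⟩ := exists_first (f := pv A) (R := fun a => plab a ∈ C \ A) (s := c) (c0 := c0)
    (c := c) ⟨L', hL'.pos, Or.inr hper⟩ fun T h1 h2 h3 h4 => hK (konst_in h1 h2 h3 h4)
  exact Or.inr ⟨_, _, ⟨h1, n, rfl, h2⟩, ⟨h3, m, rfl, h4⟩⟩

/-! ### Both legs end at the same label -/

/-- **Both legs end at the same label: all alive states have the same index.** -/
theorem konst_same (h : PN c0 c A C) (hO : FirstO c0 c A C x) (hI : FirstI c0 c A C x) :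
    Konst c0 c A C := by
  classical
  obtain ⟨hx, n, hn, hn'⟩ := hO
  obtain ⟨-, m, hm, hm'⟩ := hI
  obtain ⟨a, ha⟩ : ∃ a, (nx A)^[n] c0 = a := ⟨_, rfl⟩
  obtain ⟨b, hb⟩ : ∃ b, (pv A)^[m] c = b := ⟨_, rfl⟩
  rw [ha] at hn
  rw [hb] at hm
  refine ⟨∑ j ∈ range n, H75.Perc.del A ((nx A)^[j] c0) + (if b = nxO a then -1 else 1) +
    ∑ j ∈ range m, H75.Perc.del A ((pv A)^[m - j] c), fun w hw l hl => ?_⟩
  obtain ⟨N, hH, rfl⟩ := idx_eq_some.1 hl
  have hr := hits_pv hH
  obtain ⟨h4, h5, h6⟩ := hH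
  have hwC : w ⊆ C := (mem_Icc.1 hw).2
  have hp := nx_path (w := A) (w' := w) (c0 := c0) (n := n) fun i hi => iff_w hw (hn' i hi).1
  have hq := pv_path (w := A) (w' := w) (c := c) (n := m) fun i hi => iff_w hw (hm' i hi).1
  -- the last leg
  have hmN : m < N := by
    by_contra h7
    have h8 := hr N le_rfl
    rw [hq N (by omega), Nat.sub_self] at h8
    have h9 := (hm' (N - 1) (by omega)).2.1
    rw [Nat.sub_add_cancel h4] at h9
    exact h9 h8
  obtain ⟨n', hn1⟩ : ∃ n', N = n' + 1 + m := ⟨N - m - 1, by omega⟩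
  have hb' : nx w ((nx w)^[n'] c0) = b := by
    rw [← Function.iterate_succ_apply' (nx w), ← hb, ← hq m le_rfl, hr m hmN.le]
    congr 1
    omega
  have hl' : lab ((nx w)^[n'] c0) = x := by rw [← plab_nx w, hb', hm]
  have hnn : n ≤ n' := by
    by_contra h7
    rw [hp n' (by omega)] at hl'
    exact (hn' n' (by omega)).1 (by rw [hl']; exact hx)
  -- the sum
  have hs1 : ∑ j ∈ range n, H75.Perc.del w ((nx w)^[j] c0) =
      ∑ j ∈ range n, H75.Perc.del A ((nx A)^[j] c0) := by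
    refine sum_congr rfl fun j hj => ?_
    rw [mem_range] at hj
    rw [hp j hj.le]
    exact (del_eq_of_iff (iff_w hw (hn' j hj).1)).symm
  have hs2 : ∑ j ∈ range m, H75.Perc.del w ((nx w)^[n' + 1 + j] c0) =
      ∑ j ∈ range m, H75.Perc.del A ((pv A)^[m - j] c) := by
    refine sum_congr rfl fun j hj => ?_
    rw [mem_range] at hj
    have h7 : (nx w)^[n' + 1 + j] c0 = (pv A)^[m - j] c := by
      rw [← hq (m - j) (by omega), hr (m - j) (by omega)]
      congr 1
      omega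
    rw [h7]
    refine (del_eq_of_iff (iff_w hw ?_)).symm
    rw [show m - j = (m - j - 1) + 1 by omega, lab_pv_iter]
    exact (hm' (m - j - 1) (by omega)).1
  have hs : ∑ j ∈ range N, H75.Perc.del w ((nx w)^[j] c0) =
      ∑ j ∈ range n', H75.Perc.del w ((nx w)^[j] c0) + H75.Perc.del w ((nx w)^[n'] c0) +
        ∑ j ∈ range m, H75.Perc.del A ((pv A)^[m - j] c) := by
    rw [hn1, sum_range_add, sum_range_succ, hs2]
  rw [hs]
  rcases hnn.eq_or_lt with rfl | hlt
  · -- no detour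
    rw [hp n le_rfl, ha] at hb' ⊢
    rw [hs1]
    congr 2
    unfold H75.Perc.del
    by_cases h7 : lab a ∈ w
    · rw [if_pos h7, if_pos]
      rw [← hb', nx_of_in h7]
    · rw [if_neg h7, if_neg]
      rw [← hb', nx_of_out h7]
      exact (nxO_ne a).symm
  · -- the detour
    have hpa : (nx w)^[n] c0 = a := by rw [hp n le_rfl, ha]
    have hne : (nx w)^[n'] c0 ≠ a := by
      intro h7
      rw [← hpa, show n' = n + (n' - n) by omega, Function.iterate_add_apply] at h7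
      exact (h6 (n' - n) (by omega) (by omega)).1 ((nx_injective w).iterate n h7)
    have hop : (nx w)^[n'] c0 = opc a := by
      rcases lab_eq_iff.1 (hl'.trans hn.symm) with h7 | h7
      · exact absurd h7 hne
      · exact h7
    obtain ⟨L, hL⟩ := orb_PS (A := w) hwC c0
    have hNL : N < L := by
      by_contra h7
      rcases (by omega : L = N ∨ L < N) with h8 | h8
      · have h9 := hL.per
        rw [h8, h5] at h9
        exact h.hne h9
      · exact (h6 L hL.pos h8).1 hL.per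
    obtain ⟨w', hw'⟩ : ∃ w' : Finset (ℤ × ℤ), w' = if x ∈ w then w.erase x else insert x w := ⟨_, rfl⟩
    have hw'C : w' ⊆ C := by
      rw [hw']
      split_ifs
      · exact (erase_subset _ _).trans hwC
      · exact insert_subset (mem_sdiff.1 hx).1 hwC
    have hoff : ∀ e, e ≠ lab a → (e ∈ w ↔ e ∈ w') := by
      intro e he
      rw [hn] at he
      rw [hw']
      split_ifs
      · rw [mem_erase]; exact ⟨fun h => ⟨he, h⟩, fun h => h.2⟩
      · rw [mem_insert]; exact ⟨Or.inr, fun h => h.resolve_left he⟩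
    have hon : lab a ∈ w ↔ lab a ∉ w' := by
      rw [hn, hw']
      split_ifs with h7
      · simp [h7]
      · simp [h7]
    have hS := swapped_flip hoff hon
    have hd : ∀ z, z ≠ a → z ≠ opc a → H75.Perc.del w' z = H75.Perc.del w z := by
      intro z h1 h2
      refine (del_eq_of_iff (hoff _ fun h3 => ?_)).symm
      rcases lab_eq_iff.1 h3 with h4 | h4
      · exact h1 h4
      · exact h2 h4
    have he : H75.Perc.del w' a = -H75.Perc.del w (opc a) := by
      unfold H75.Perc.del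
      rw [lab_opc]
      by_cases h7 : lab a ∈ w
      · rw [if_pos h7, if_neg (hon.1 h7)]; norm_num
      · rw [if_neg h7, if_pos (not_not.1 fun h8 => h7 (hon.2 h8))]
    have hsp := hS.split_KK hd rfl he 0 hL hlt (by omega : n' < L) hpa hop
    have hor := (hS.split hL hlt (by omega : n' < L) hpa hop).2.2
    rw [h.tot hwC hL, h.tot hw'C hor] at hsp
    have hsp2 := hsp.2
    unfold KK at hsp2
    rw [hs1] at hsp2
    rw [hop]
    have hfin : (if b = nxO a then (-1 : ℤ) else 1) = -H75.Perc.del w (opc a) := by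
      rw [hop] at hb'
      unfold H75.Perc.del
      rw [lab_opc]
      by_cases h7 : lab a ∈ w
      · rw [if_pos h7, if_neg]
        · norm_num
        · rw [← hb', nx_of_in (by rw [lab_opc]; exact h7), ← nxC_eq_nxO]
          exact (nxO_ne a).symm
      · rw [if_neg h7, if_pos]
        rw [← hb', nx_of_out (by rw [lab_opc]; exact h7), nxC_eq_nxO, opc_opc]
    rw [hfin]
    linarith

end Pool.Agent.ZM
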