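import Mathlib
import Pool.Agent.ZM.Leg

set_option autoImplicit false
open Finset Polynomial

/-! # The counting form of (ALT) implies the weighted form (MP_fe58d8_pr, note 1668)

The products of partition functions are expanded over pairs of states; pairs with the same
intersection `I` and the same union `U` are the pairs of opposite states of the cube `[I, U]`. -/

namespace Pool.Agent.ZM

open Pool.Agent.H75.Perc Pool.Agent.H75.TwoArm Pool.Agent.H69.Q1 Pool.Agent.Q1 Pool.Agent.ZF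
open Pool.Agent.H75.TwoArm.StrandAux hiding vx_nxC

variable {c0 c x z : ℤ × ℤ} {A C I U : Finset (ℤ × ℤ)} {t : ℤ × ℤ → ℝ} {M : ℤ}

/-! ### Legs in sub-cubes -/

theorem FirstO.sub (h : FirstO c0 c A C x) (h1 : A ⊆ I) (h0 : I ⊆ U) (h2 : U ⊆ C)
    (hx : x ∈ U \ I) : FirstO c0 c I U x := by
  obtain ⟨-, n, hn, h3⟩ := h
  have h4 := nx_path (w := A) (w' := I) (c0 := c0) (n := n)
    fun i hi => iff_w (mem_Icc.2 ⟨h1, h0.trans h2⟩) (h3 i hi).1
  refine ⟨hx, n, by rw [h4 n le_rfl]; exact hn, fun i hi => ?_⟩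
  rw [h4 i hi.le, h4 (i + 1) hi]
  refine ⟨fun h5 => (h3 i hi).1 ?_, (h3 i hi).2⟩
  rw [mem_sdiff] at h5
  exact mem_sdiff.2 ⟨h2 h5.1, fun h6 => h5.2 (h1 h6)⟩

theorem FirstI.sub (h : FirstI c0 c A C z) (h1 : A ⊆ I) (h0 : I ⊆ U) (h2 : U ⊆ C)
    (hz : z ∈ U \ I) : FirstI c0 c I U z := by
  obtain ⟨-, n, hn, h3⟩ := h
  have h4 := pv_path (w := A) (w' := I) (c := c) (n := n)
    fun i hi => iff_w (mem_Icc.2 ⟨h1, h0.trans h2⟩) (h3 i hi).1
  refine ⟨hz, n, by rw [h4 n le_rfl]; exact hn, fun i hi => ?_⟩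
  rw [h4 i hi.le, h4 (i + 1) hi]
  refine ⟨fun h5 => (h3 i hi).1 ?_, (h3 i hi).2⟩
  rw [mem_sdiff] at h5
  exact mem_sdiff.2 ⟨h2 h5.1, fun h6 => h5.2 (h1 h6)⟩

/-! ### Pairs of states -/

/-- both states are alive and the sum of the indices is `s` -/
def Al (c0 c : ℤ × ℤ) (s : ℤ) (P Q : Finset (ℤ × ℤ)) : Prop :=
  ∃ k l : ℤ, Kw c0 c P = some k ∧ Kw c0 c Q = some l ∧ k + l = s

/-- weight of a pair -/
noncomputable def wt (c0 c : ℤ × ℤ) (t : ℤ × ℤ → ℝ) (s : ℤ) (p : Finset (ℤ × ℤ) × Finset (ℤ × ℤ)) :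
    ℝ := by
  classical exact (∏ e ∈ p.1, t e) * (∏ e ∈ p.2, t e) * if Al c0 c s p.1 p.2 then 1 else 0

lemma coeff_pair (hM : Sh c0 c M A C) {P Q : Finset (ℤ × ℤ)} (hP : P ∈ Icc A C) (hQ : Q ∈ Icc A C)
    (k : ℕ) : ((Polynomial.C (∏ e ∈ P, t e) * mon M (Kw c0 c P)) *
      (Polynomial.C (∏ e ∈ Q, t e) * mon M (Kw c0 c Q))).coeff k =
      wt c0 c t (4 * k - 2 * M) (P, Q) := by
  classical
  unfold wt
  rw [show Polynomial.C (∏ e ∈ P, t e) * mon M (Kw c0 c P) *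
      (Polynomial.C (∏ e ∈ Q, t e) * mon M (Kw c0 c Q)) =
      Polynomial.C ((∏ e ∈ P, t e) * (∏ e ∈ Q, t e)) * (mon M (Kw c0 c P) * mon M (Kw c0 c Q)) by
    rw [Polynomial.C_mul]; ring, coeff_C_mul]
  congr 1
  rcases hk : Kw c0 c P with _ | a
  · rw [if_neg]
    · simp [mon]
    · rintro ⟨k', l', h1, -, -⟩
      rw [hk] at h1
      cases h1
  rcases hl : Kw c0 c Q with _ | b
  · rw [if_neg]
    · simp [mon]
    · rintro ⟨k', l', -, h1, -⟩
      rw [hl] at h1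
      cases h1
  obtain ⟨h1, h2⟩ := hM P hP a hk
  obtain ⟨h3, h4⟩ := hM Q hQ b hl
  simp only [mon]
  rw [← pow_add, coeff_X_pow]
  refine if_congr ⟨fun h5 => ⟨a, b, hk, hl, by omega⟩, ?_⟩ rfl rfl
  rintro ⟨k', l', h5, h6, h7⟩
  rw [hk] at h5
  rw [hl] at h6
  cases h5
  cases h6
  omega

lemma coeff_mul (hM : Sh c0 c M A C) {A1 C1 A2 C2 : Finset (ℤ × ℤ)} (h1 : A ⊆ A1) (h2 : C1 ⊆ C)
    (h3 : A ⊆ A2) (h4 : C2 ⊆ C) (k : ℕ) : (Z c0 c t M A1 C1 * Z c0 c t M A2 C2).coeff k =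
      ∑ p ∈ Icc A1 C1 ×ˢ Icc A2 C2, wt c0 c t (4 * k - 2 * M) p := by
  unfold Z
  rw [sum_mul_sum, finsetSum_coeff, sum_product]
  refine sum_congr rfl fun P hP => ?_
  rw [finsetSum_coeff]
  refine sum_congr rfl fun Q hQ => ?_
  rw [mem_Icc] at hP hQ
  exact coeff_pair hM (mem_Icc.2 ⟨h1.trans hP.1, hP.2.trans h2⟩)
    (mem_Icc.2 ⟨h3.trans hQ.1, hQ.2.trans h4⟩) k

/-- the pairs which differ at `x` and at `z`, with `x` in the first state -/
noncomputable def DD (A C : Finset (ℤ × ℤ)) (x z : ℤ × ℤ) :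
    Finset (Finset (ℤ × ℤ) × Finset (ℤ × ℤ)) :=
  (Icc A C ×ˢ Icc A C).filter fun p => x ∈ p.1 ∧ x ∉ p.2 ∧ (z ∈ p.1 ↔ z ∉ p.2)

/-- sign of a pair -/
noncomputable def eps (z : ℤ × ℤ) (P : Finset (ℤ × ℤ)) : ℝ := if z ∈ P then -1 else 1

lemma sum_DD (hx : x ∈ C \ A) (hz : z ∈ C \ A)
    (f : Finset (ℤ × ℤ) × Finset (ℤ × ℤ) → ℝ) :
    ∑ p ∈ DD A C x z, eps z p.1 * f p =
      ∑ p ∈ Icc (insert x A) (C.erase z) ×ˢ Icc (insert z A) (C.erase x), f p -
        ∑ p ∈ Icc (insert z (insert x A)) C ×ˢ Icc A ((C.erase x).erase z), f p := by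
  classical
  rw [mem_sdiff] at hx hz
  have h1 : (DD A C x z).filter (fun p => z ∈ p.1) =
      Icc (insert z (insert x A)) C ×ˢ Icc A ((C.erase x).erase z) := by
    ext ⟨P, Q⟩
    simp only [DD, mem_filter, mem_product, mem_Icc, insert_subset_iff, subset_erase]
    tauto
  have h2 : (DD A C x z).filter (fun p => ¬ z ∈ p.1) =
      Icc (insert x A) (C.erase z) ×ˢ Icc (insert z A) (C.erase x) := by
    ext ⟨P, Q⟩
    simp only [DD, mem_filter, mem_product, mem_Icc, insert_subset_iff, subset_erase]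
    tauto
  rw [← sum_filter_add_sum_filter_not _ (fun p : Finset (ℤ × ℤ) × Finset (ℤ × ℤ) => z ∈ p.1), h1, h2,
    add_comm, sub_eq_add_neg, ← sum_neg_distrib]
  congr 1
  · refine sum_congr rfl fun p hp => ?_
    rw [mem_product, mem_Icc, subset_erase] at hp
    rw [eps, if_neg hp.1.2.2, one_mul]
  · refine sum_congr rfl fun p hp => ?_
    rw [mem_product, mem_Icc, insert_subset_iff] at hp
    rw [eps, if_pos hp.1.1.1, neg_one_mul]

/-! ### One cube -/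

lemma mem_cpl {P : Finset (ℤ × ℤ)} {e : ℤ × ℤ} : e ∈ cpl I U P ↔ e ∈ I ∨ e ∈ U ∧ e ∉ P := by
  simp [cpl]

lemma fib_eq (h1 : A ⊆ I) (h2 : I ⊆ U) (h3 : U ⊆ C) (hx : x ∈ U \ I) (hz : z ∈ U \ I) :
    (DD A C x z).filter (fun p => (p.1 ∩ p.2, p.1 ∪ p.2) = (I, U)) =
      ((Icc I U).filter (fun P => x ∈ P)).image (fun P => (P, cpl I U P)) := by
  classical
  rw [mem_sdiff] at hx hz
  ext ⟨P, Q⟩
  simp only [DD, mem_filter, mem_product, mem_Icc, mem_image, Prod.mk.injEq]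
  constructor
  · rintro ⟨⟨⟨⟨-, -⟩, -, -⟩, h4, h5, h6⟩, rfl, rfl⟩
    refine ⟨P, ⟨⟨inter_subset_left, subset_union_left⟩, h4⟩, rfl, ?_⟩
    ext e
    rw [mem_cpl, mem_inter, mem_union]
    tauto
  · rintro ⟨P', ⟨⟨h4, h5⟩, h6⟩, rfl, rfl⟩
    have h7 : P' ∩ cpl I U P' = I := by
      ext e
      rw [mem_inter, mem_cpl]
      exact ⟨fun h => h.2.resolve_right fun h8 => h8.2 h.1, fun h => ⟨h4 h, Or.inl h⟩⟩
    have h8 : P' ∪ cpl I U P' = U := by
      ext e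
      rw [mem_union, mem_cpl]
      constructor
      · rintro (h | h | h)
        exacts [h5 h, h2 h, h.1]
      · intro h
        by_cases h9 : e ∈ P'
        exacts [Or.inl h9, Or.inr (Or.inr ⟨h, h9⟩)]
    refine ⟨⟨⟨⟨h1.trans h4, h5.trans h3⟩, ?_, ?_⟩, h6, ?_, ?_⟩, h7, h8⟩
    · intro e he
      exact mem_cpl.2 (Or.inl (h1 he))
    · intro e he
      rcases mem_cpl.1 he with h9 | h9
      exacts [h3 (h2 h9), h3 h9.1]
    · rw [mem_cpl]
      rintro (h9 | h9)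
      exacts [hx.2 h9, h9.2 h6]
    · rw [mem_cpl]
      tauto

lemma wt_cpl {P : Finset (ℤ × ℤ)} (h2 : I ⊆ U) (hP : P ∈ Icc I U) (s : ℤ) :
    wt c0 c t s (P, cpl I U P) = (∏ e ∈ U, t e) * (∏ e ∈ I, t e) *
      wt c0 c (fun _ => 1) s (P, cpl I U P) := by
  classical
  rw [mem_Icc] at hP
  have h7 : P ∩ cpl I U P = I := by
    ext e
    rw [mem_inter, mem_cpl]
    exact ⟨fun h => h.2.resolve_right fun h8 => h8.2 h.1, fun h => ⟨hP.1 h, Or.inl h⟩⟩
  have h8 : P ∪ cpl I U P = U := by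
    ext e
    rw [mem_union, mem_cpl]
    constructor
    · rintro (h | h | h)
      exacts [hP.2 h, h2 h, h.1]
    · intro h
      by_cases h9 : e ∈ P
      exacts [Or.inl h9, Or.inr (Or.inr ⟨h, h9⟩)]
  unfold wt
  simp only [prod_const_one, one_mul]
  rw [← prod_union_inter, h7, h8]

/-- the signed count of one cube is good minus bad -/
lemma one_cube (hM : Sh c0 c M I U) (h2 : I ⊆ U) (k : ℕ) :
    (-1 : ℝ) ^ (k + 1) * ∑ P ∈ (Icc I U).filter (fun P => x ∈ P),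
      eps z P * wt c0 c (fun _ => 1) (4 * k - 2 * M) (P, cpl I U P) =
      (prs c0 c I U x z (4 * k - 2 * M) True).card - (prs c0 c I U x z (4 * k - 2 * M) False).card := by
  classical
  have hcard : ∀ g : Prop, ((prs c0 c I U x z (4 * k - 2 * M) g).card : ℝ) =
      ∑ P ∈ (Icc I U).filter (fun P => x ∈ P), if (∃ a l : ℤ, Kw c0 c P = some a ∧
        Kw c0 c (cpl I U P) = some l ∧ a + l = 4 * k - 2 * M ∧ ((z ∉ P ↔ ¬ (8 : ℤ) ∣ a - l) ↔ g))
        then (1 : ℝ) else 0 := by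
    intro g
    rw [prs, card_eq_sum_ones, Nat.cast_sum, ← filter_filter, sum_filter]
    refine sum_congr rfl fun P _ => ?_
    split_ifs <;> simp
  rw [hcard, hcard, ← sum_sub_distrib, mul_sum]
  refine sum_congr rfl fun P hP => ?_
  rw [mem_filter] at hP
  have hQ : cpl I U P ∈ Icc I U := by
    rw [mem_Icc]
    exact ⟨fun e he => mem_cpl.2 (Or.inl he), fun e he => (mem_cpl.1 he).elim (fun h => h2 h)
      fun h => h.1⟩
  unfold wt
  simp only [prod_const_one, one_mul]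
  by_cases hA : Al c0 c (4 * k - 2 * M) P (cpl I U P)
  · rw [if_pos hA]
    obtain ⟨a, l, h3, h4, h5⟩ := hA
    obtain ⟨h6, h7⟩ := hM P hP.1 a h3
    obtain ⟨h8, h9⟩ := hM _ hQ l h4
    have hex : ∀ g : Prop, (∃ a l : ℤ, Kw c0 c P = some a ∧
        Kw c0 c (cpl I U P) = some l ∧ a + l = 4 * k - 2 * M ∧ ((z ∉ P ↔ ¬ (8 : ℤ) ∣ a - l) ↔ g)) ↔
        ((z ∉ P ↔ ¬ (8 : ℤ) ∣ a - l) ↔ g) := by
      intro g
      constructor
      · rintro ⟨a', l', h3', h4', -, h⟩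
        rw [h3] at h3'
        rw [h4] at h4'
        cases h3'
        cases h4'
        exact h
      · exact fun h => ⟨a, l, h3, h4, h5, h⟩
    simp only [hex]
    have hpar : (8 : ℤ) ∣ a - l ↔ Even k := by
      rw [Nat.even_iff]
      omega
    unfold eps
    rw [mul_one]
    by_cases hk : Even k
    · rw [pow_succ, hk.neg_one_pow]
      have h10 := hpar.2 hk
      by_cases hzP : z ∈ P <;> simp [hzP, h10]
    · rw [(Nat.not_even_iff_odd.1 hk).add_one.neg_one_pow]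
      have h10 : ¬ (8 : ℤ) ∣ a - l := fun h => hk (hpar.1 h)
      by_cases hzP : z ∈ P <;> simp [hzP, h10]
  · rw [if_neg hA, if_neg, if_neg]
    · simp
    · rintro ⟨a, l, h3, h4, h5, -⟩
      exact hA ⟨a, l, h3, h4, h5⟩
    · rintro ⟨a, l, h3, h4, h5, -⟩
      exact hA ⟨a, l, h3, h4, h5⟩

/-- **The counting form of (ALT) implies the weighted form.** -/
theorem alt_of_count (hC : ALTCount) : ALTHyp := by
  classical
  intro c0 c A C hPN x z hO hI hxz t ht M hM k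
  have hx := hO.1
  have hz := hI.1
  have hx' := mem_sdiff.1 hx
  have hz' := mem_sdiff.1 hz
  rw [coeff_sub, coeff_mul hM (subset_insert _ _) (erase_subset _ _) (subset_insert _ _)
    (erase_subset _ _), coeff_mul hM ((subset_insert _ _).trans (subset_insert _ _)) (Subset.refl _)
    (Subset.refl _) ((erase_subset _ _).trans (erase_subset _ _)), ← sum_DD hx hz,
    ← sum_fiberwise_of_maps_to (s := DD A C x z) (t := (Icc A C ×ˢ Icc A C).filter
      (fun q => q.1 ⊆ q.2 ∧ x ∈ q.2 \ q.1 ∧ z ∈ q.2 \ q.1)) (g := fun p => (p.1 ∩ p.2, p.1 ∪ p.2)),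
    mul_sum]
  · refine sum_nonneg fun q hq => ?_
    obtain ⟨I, U⟩ := q
    simp only [mem_filter, mem_product, mem_Icc] at hq
    obtain ⟨⟨⟨h1, -⟩, -, h3⟩, h2, hx2, hz2⟩ := hq
    rw [fib_eq h1 h2 h3 hx2 hz2, sum_image fun P _ Q _ h => (Prod.mk.inj h).1]
    have h4 : ∑ P ∈ (Icc I U).filter (fun P => x ∈ P), eps z P *
        wt c0 c t (4 * k - 2 * M) (P, cpl I U P) = (∏ e ∈ U, t e) * (∏ e ∈ I, t e) *
        ∑ P ∈ (Icc I U).filter (fun P => x ∈ P), eps z P *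
          wt c0 c (fun _ => 1) (4 * k - 2 * M) (P, cpl I U P) := by
      rw [mul_sum]
      refine sum_congr rfl fun P hP => ?_
      rw [wt_cpl h2 (mem_filter.1 hP).1]
      ring
    rw [h4, mul_left_comm, one_cube (hM.sub h1 h3) h2]
    refine mul_nonneg (mul_nonneg (prod_nonneg fun e _ => (ht e).le)
      (prod_nonneg fun e _ => (ht e).le)) (sub_nonneg.2 (Nat.cast_le.2 ?_))
    exact hC c0 c I U (hPN.sub h2 h3) x z (hO.sub h1 h2 h3 hx2) (hI.sub h1 h2 h3 hz2) hxz _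
  · rintro ⟨P, Q⟩ hp
    simp only [DD, mem_filter, mem_product, mem_Icc] at hp
    obtain ⟨⟨⟨h1, h2⟩, h3, h4⟩, h5, h6, h7⟩ := hp
    simp only [mem_filter, mem_product, mem_Icc, mem_sdiff, mem_union, mem_inter]
    refine ⟨⟨⟨subset_inter h1 h3, inter_subset_left.trans h2⟩, h1.trans subset_union_left,
      union_subset h2 h4⟩, inter_subset_left.trans subset_union_left, ⟨Or.inl h5, fun h => h6 h.2⟩,
      by tauto, by tauto⟩

end Pool.Agent.ZM
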