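import Mathlib
import Pool.Agent.ZM.Def

set_option autoImplicit false
open Finset Polynomial Filter Topology

/-! # Real-rooted polynomials with nonnegative coefficients, the relation `IL` -/

namespace Pool.Agent.ZM

variable {P Q : ℝ[X]}

/-! ### `R0` -/

lemma R0.zero : R0 (0 : ℝ[X]) := ⟨fun n => by simp, Splits.zero⟩

lemma eval_pos_of (h : ∀ n, 0 ≤ P.coeff n) (h0 : P ≠ 0) {x : ℝ} (hx : 0 < x) : 0 < P.eval x := by
  rw [eval_eq_sum_range]
  refine Finset.sum_pos' (fun i _ => mul_nonneg (h i) (pow_nonneg hx.le _))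
    ⟨P.natDegree, by simp, mul_pos ?_ (pow_pos hx _)⟩
  exact lt_of_le_of_ne (h _) (by simpa using Ne.symm (leadingCoeff_ne_zero.2 h0))

lemma R0.root_nonpos (h : R0 P) {a : ℝ} (ha : a ∈ P.roots) : a ≤ 0 := by
  by_contra hc
  push Not at hc
  have h0 : P ≠ 0 := by rintro rfl; simp at ha
  exact (eval_pos_of h.1 h0 hc).ne' (by simpa using (mem_roots h0).1 ha)

lemma R0.lead (h : R0 P) (h0 : P ≠ 0) : 0 < P.leadingCoeff :=
  lt_of_le_of_ne (h.1 _) (Ne.symm (leadingCoeff_ne_zero.2 h0))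

lemma prod_coeff_nonneg (s : Multiset ℝ) : (∀ a ∈ s, a ≤ 0) →
    ∀ n, 0 ≤ ((s.map (fun a => X - C a)).prod).coeff n := by
  induction s using Multiset.induction_on with
  | empty =>
    intro _ n
    rw [Multiset.map_zero, Multiset.prod_zero, coeff_one]
    split_ifs <;> norm_num
  | cons a s ih =>
    intro h n
    have ih' := ih (fun b hb => h b (Multiset.mem_cons_of_mem hb))
    have ha := h a (Multiset.mem_cons_self a s)
    rw [Multiset.map_cons, Multiset.prod_cons]
    cases n with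
    | zero =>
      rw [mul_coeff_zero]
      simp only [coeff_sub, coeff_X_zero, coeff_C_zero, zero_sub]
      exact mul_nonneg (by linarith) (ih' 0)
    | succ n =>
      rw [coeff_X_sub_C_mul]
      nlinarith [ih' n, ih' (n + 1)]

lemma R0.mk' (hs : P.Splits) (hl : 0 ≤ P.leadingCoeff) (hr : ∀ a ∈ P.roots, a ≤ 0) : R0 P := by
  refine ⟨fun n => ?_, hs⟩
  rw [hs.eq_prod_roots, coeff_C_mul]
  exact mul_nonneg hl (prod_coeff_nonneg _ hr n)

lemma R0.dvd {a : ℝ} (h : R0 ((X - C a) * P)) : R0 P := by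
  by_cases h0 : P = 0
  · subst h0; exact R0.zero
  have hne : (X - C a) * P ≠ 0 := mul_ne_zero (X_sub_C_ne_zero a) h0
  refine R0.mk' (h.2.of_dvd hne (dvd_mul_left _ _)) ?_ (fun b hb => ?_)
  · have := h.1 ((X - C a) * P).natDegree
    rwa [coeff_natDegree, leadingCoeff_mul, leadingCoeff_X_sub_C, one_mul] at this
  · exact h.root_nonpos (by rw [roots_mul hne]; exact Multiset.mem_add.2 (Or.inr hb))

/-! ### the counting function -/

lemma nr_mul {a : ℝ} (h0 : P ≠ 0) (r : ℝ) :
    nr ((X - C a) * P) r = nr P r + (if -r < a then 1 else 0) := by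
  have hne : (X - C a) * P ≠ 0 := mul_ne_zero (X_sub_C_ne_zero a) h0
  rw [nr, roots_mul hne, roots_X_sub_C, Multiset.filter_add, Multiset.card_add, add_comm]
  unfold nr
  congr 1
  by_cases h : -r < a
  · rw [if_pos h, Multiset.filter_singleton, if_pos h, Multiset.card_singleton]
  · rw [if_neg h, Multiset.filter_singleton, if_neg h]; rfl

lemma ev_left (s : Multiset ℝ) (x : ℝ) :
    ∀ᶠ y in 𝓝[<] x, s.filter (fun a => y < a) = s.filter (fun a => x ≤ a) := by
  have : ∀ᶠ y in 𝓝[<] x, ∀ a ∈ s.toFinset, (y < a ↔ x ≤ a) := by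
    rw [Filter.eventually_all_finset]
    intro a _
    rcases le_or_gt x a with h | h
    · filter_upwards [self_mem_nhdsWithin] with y hy
      exact ⟨fun _ => h, fun _ => lt_of_lt_of_le hy h⟩
    · filter_upwards [mem_nhdsWithin_of_mem_nhds (Ioi_mem_nhds h)] with y hy
      exact ⟨fun h1 => absurd h1 (not_lt.2 (le_of_lt hy)), fun h1 => absurd h1 (not_le.2 h)⟩
  filter_upwards [this] with y hy
  exact Multiset.filter_congr (fun a ha => hy a (Multiset.mem_toFinset.2 ha))

lemma ev_right (s : Multiset ℝ) (x : ℝ) :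
    ∀ᶠ y in 𝓝[>] x, s.filter (fun a => y < a) = s.filter (fun a => x < a) ∧ y ∉ s := by
  have : ∀ᶠ y in 𝓝[>] x, ∀ a ∈ s.toFinset, (y < a ↔ x < a) ∧ y ≠ a := by
    rw [Filter.eventually_all_finset]
    intro a _
    rcases lt_or_ge x a with h | h
    · filter_upwards [mem_nhdsWithin_of_mem_nhds (Iio_mem_nhds h)] with y hy
      exact ⟨⟨fun _ => h, fun _ => hy⟩, ne_of_lt hy⟩
    · filter_upwards [self_mem_nhdsWithin] with y hy
      have hy' : x < y := hy
      exact ⟨⟨fun h1 => absurd h1 (not_lt.2 (h.trans hy'.le)), fun h1 => absurd h1 (not_lt.2 h)⟩,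
        (lt_of_le_of_lt h hy').ne'⟩
  filter_upwards [this] with y hy
  exact ⟨Multiset.filter_congr (fun a ha => (hy a (Multiset.mem_toFinset.2 ha)).1),
    fun hm => (hy y (Multiset.mem_toFinset.2 hm)).2 rfl⟩

/-- generic radii -/
lemma generic (s : Finset ℝ[X]) (hs : ∀ P ∈ s, P ≠ 0) {r : ℝ} (hr : 0 < r) :
    ∃ r' : ℝ, 0 < r' ∧ r' ≤ r ∧ ∀ P ∈ s, P.eval (-r') ≠ 0 ∧ nr P r' = nr P r := by
  have h1 : ∀ᶠ y in 𝓝[>] (-r), ∀ P ∈ s,
      P.roots.filter (fun a => y < a) = P.roots.filter (fun a => -r < a) ∧ y ∉ P.roots := by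
    rw [Filter.eventually_all_finset]
    exact fun P _ => ev_right P.roots (-r)
  have h2 : ∀ᶠ y in 𝓝[>] (-r), y < 0 :=
    mem_nhdsWithin_of_mem_nhds (Iio_mem_nhds (by linarith))
  obtain ⟨y, hy1, hy2, hy3⟩ := (h1.and (h2.and self_mem_nhdsWithin)).exists
  have hy3' : -r < y := hy3
  refine ⟨-y, by linarith, by linarith, fun P hP => ?_⟩
  obtain ⟨h3, h4⟩ := hy1 P hP
  refine ⟨fun h5 => h4 ((mem_roots (hs P hP)).2 (by simpa using h5)), ?_⟩
  unfold nr
  rw [neg_neg, h3]

/-- just beyond a radius -/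
lemma beyond (P Q : ℝ[X]) (r : ℝ) : ∃ r' : ℝ, r < r' ∧
    nr P r' = nr P r + P.roots.count (-r) ∧ nr Q r' = nr Q r + Q.roots.count (-r) := by
  obtain ⟨y, h1, h2, h3⟩ := ((ev_left P.roots (-r)).and
    ((ev_left Q.roots (-r)).and self_mem_nhdsWithin)).exists
  have h3' : y < -r := h3
  have key : ∀ s : Multiset ℝ, s.filter (fun a => y < a) = s.filter (fun a => -r ≤ a) →
      (s.filter (fun a => y < a)).card = (s.filter (fun a => -r < a)).card + s.count (-r) := by
    intro s hs
    rw [hs]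
    have e1 : s.filter (fun a => -r ≤ a) = s.filter (fun a => -r < a) + s.filter (fun a => -r = a) := by
      rw [Multiset.filter_add_filter (fun a => -r < a) (fun a => -r = a) s]
      have e2 : s.filter (fun a => -r < a ∧ -r = a) = 0 :=
        Multiset.filter_eq_nil.2 (fun a _ h => absurd h.2 (ne_of_lt h.1))
      rw [e2, add_zero]
      exact Multiset.filter_congr (fun a _ => le_iff_lt_or_eq)
    rw [e1, Multiset.card_add, Multiset.count_eq_card_filter_eq]
  refine ⟨-y, by linarith, ?_, ?_⟩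
  · unfold nr; rw [neg_neg]; exact key _ h1
  · unfold nr; rw [neg_neg]; exact key _ h2

/-! ### parity -/

lemma prod_sign (s : Multiset ℝ) (x : ℝ) : (∀ a ∈ s, a ≠ x) →
    0 < (-1 : ℝ) ^ (s.filter (fun a => x < a)).card * (s.map (fun a => x - a)).prod := by
  induction s using Multiset.induction_on with
  | empty => intro _; simp
  | cons a s ih =>
    intro h
    have ih' := ih (fun b hb => h b (Multiset.mem_cons_of_mem hb))
    have ha := h a (Multiset.mem_cons_self a s)
    rw [Multiset.map_cons, Multiset.prod_cons]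
    rcases lt_or_gt_of_ne ha with h1 | h1
    · rw [Multiset.filter_cons_of_neg _ (not_lt.2 h1.le)]
      have : (-1 : ℝ) ^ (s.filter (fun a => x < a)).card * ((x - a) * (s.map (fun a => x - a)).prod) =
        (x - a) * ((-1 : ℝ) ^ (s.filter (fun a => x < a)).card * (s.map (fun a => x - a)).prod) := by
        ring
      rw [this]
      exact mul_pos (by linarith) ih'
    · rw [Multiset.filter_cons_of_pos _ h1, Multiset.card_cons, pow_succ]
      have : (-1 : ℝ) ^ (s.filter (fun a => x < a)).card * -1 *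
          ((x - a) * (s.map (fun a => x - a)).prod) =
        (a - x) * ((-1 : ℝ) ^ (s.filter (fun a => x < a)).card * (s.map (fun a => x - a)).prod) := by
        ring
      rw [this]
      exact mul_pos (by linarith) ih'

lemma R0.parity (h : R0 P) {r : ℝ} (hr : P.eval (-r) ≠ 0) :
    0 < (-1 : ℝ) ^ (nr P r) * P.eval (-r) := by
  have h0 : P ≠ 0 := by rintro rfl; simp at hr
  have h1 := prod_sign P.roots (-r) (fun a ha hc => hr (by
    have := (mem_roots h0).1 ha
    rw [hc] at this; exact this))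
  rw [h.2.eval_eq_prod_roots]
  have : (-1 : ℝ) ^ (nr P r) * (P.leadingCoeff * (P.roots.map (fun a => -r - a)).prod) =
      P.leadingCoeff * ((-1 : ℝ) ^ (P.roots.filter (fun a => -r < a)).card *
        (P.roots.map (fun a => -r - a)).prod) := by
    unfold nr; ring
  rw [this]
  exact mul_pos (h.lead h0) h1

/-! ### the coprime case -/

lemma nr_zero_of (h : R0 P) {r : ℝ} (hr : r ≤ 0) : nr P r = 0 := by
  unfold nr
  rw [Multiset.card_eq_zero, Multiset.filter_eq_nil]
  intro a ha h1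
  have := h.root_nonpos ha
  linarith

lemma exists_big (hp : ∀ n, 0 ≤ P.coeff n) (h0 : P ≠ 0) (b : ℝ) (hd : 0 < P.natDegree) :
    ∃ y, y < b ∧ 0 < (-1 : ℝ) ^ P.natDegree * P.eval y := by
  have hl : 0 < P.leadingCoeff := lt_of_le_of_ne (hp _) (Ne.symm (leadingCoeff_ne_zero.2 h0))
  set S : ℝ[X] := C ((-1 : ℝ) ^ P.natDegree) * P.comp (-X) with hS
  have hlS : S.leadingCoeff = P.leadingCoeff := by
    rw [hS, leadingCoeff_mul, leadingCoeff_C, comp_neg_X_leadingCoeff_eq, ← mul_assoc, ← mul_pow]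
    norm_num
  have hdS : 0 < S.degree := by
    rw [hS, degree_C_mul (pow_ne_zero _ (by norm_num)), ← natDegree_pos_iff_degree_pos]
    rw [natDegree_comp, natDegree_neg, natDegree_X, mul_one]; exact hd
  have ht := S.tendsto_atTop_of_leadingCoeff_nonneg hdS (by rw [hlS]; exact hl.le)
  obtain ⟨y, hy1, hy2⟩ := ((ht.eventually_gt_atTop 0).and (eventually_gt_atTop (-b))).exists
  refine ⟨-y, by linarith, ?_⟩
  rw [hS, eval_mul, eval_C, eval_comp] at hy1
  simpa using hy1

lemma add_coprime (hP : R0 P) (hQ : R0 Q) (hP0 : P ≠ 0) (hQ0 : Q ≠ 0)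
    (hlev : ∀ r : ℝ, 0 < r → nr Q r ≤ nr P r ∧ nr P r ≤ nr Q r + 1)
    (hc : ∀ a ∈ P.roots, a ∉ Q.roots) :
    R0 (P + Q) ∧ ∀ r : ℝ, 0 < r →
      nr (P + Q) r ≤ nr P r ∧ nr P r ≤ nr (P + Q) r + 1 ∧ nr Q r ≤ nr (P + Q) r := by
  classical
  set R := P + Q with hR
  have hRc : ∀ n, 0 ≤ R.coeff n := fun n => by
    rw [hR, coeff_add]; exact add_nonneg (hP.1 n) (hQ.1 n)
  -- degrees
  have hcard : P.roots.card = P.natDegree := splits_iff_card_roots.1 hP.2
  have hcardQ : Q.roots.card = Q.natDegree := splits_iff_card_roots.1 hQ.2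
  have hdeg : Q.natDegree ≤ P.natDegree := by
    obtain ⟨b, hb⟩ : ∃ b : ℝ, 0 < b ∧ ∀ a ∈ P.roots + Q.roots, -b < a := by
      have : ∀ s : Multiset ℝ, ∃ b : ℝ, 0 < b ∧ ∀ a ∈ s, -b < a := by
        intro s
        induction s using Multiset.induction_on with
        | empty => exact ⟨1, one_pos, by simp⟩
        | cons a s ih =>
          obtain ⟨b, hb1, hb2⟩ := ih
          refine ⟨max b (-a + 1), lt_max_of_lt_left hb1, fun c hc => ?_⟩
          rcases Multiset.mem_cons.1 hc with rfl | h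
          · have := le_max_right b (-c + 1); linarith
          · have := le_max_left b (-a + 1); have := hb2 c h; linarith
      exact this _
    have h1 := (hlev b hb.1).1
    have e1 : nr P b = P.natDegree := by
      unfold nr; rw [Multiset.filter_eq_self.2 (fun a ha => hb.2 a (Multiset.mem_add.2 (Or.inl ha)))]
      exact hcard
    have e2 : nr Q b = Q.natDegree := by
      unfold nr; rw [Multiset.filter_eq_self.2 (fun a ha => hb.2 a (Multiset.mem_add.2 (Or.inr ha)))]
      exact hcardQ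
    omega
  have hRp : 0 < R.coeff P.natDegree := by
    rw [hR, coeff_add]
    exact add_pos_of_pos_of_nonneg (hP.lead hP0) (hQ.1 _)
  have hR0 : R ≠ 0 := by rintro h; rw [h] at hRp; simp at hRp
  have hRd : R.natDegree = P.natDegree := by
    apply le_antisymm
    · exact (natDegree_add_le P Q).trans (max_le le_rfl hdeg)
    · exact le_natDegree_of_ne_zero hRp.ne'
  -- levels at the roots of `P`
  have hroot : ∀ a ∈ P.roots, nr Q (-a) = nr P (-a) ∧ P.roots.count a = 1 := by
    intro a ha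
    obtain ⟨r', h1, h2, h3⟩ := beyond P Q (-a)
    rw [neg_neg] at h2 h3
    have ha0 := hP.root_nonpos ha
    have h4 := hlev r' (by linarith)
    have h5 : Q.roots.count a = 0 := Multiset.count_eq_zero.2 (hc a ha)
    have h6 : 0 < P.roots.count a := Multiset.count_pos.2 ha
    have h7 : nr Q (-a) ≤ nr P (-a) := by
      rcases eq_or_lt_of_le ha0 with h | h
      · rw [nr_zero_of hQ (by linarith)]; exact Nat.zero_le _
      · exact (hlev (-a) (by linarith)).1
    omega
  have hnd : P.roots.Nodup := Multiset.nodup_iff_count_le_one.2 (fun a => by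
    by_cases ha : a ∈ P.roots
    · exact (hroot a ha).2.le
    · rw [Multiset.count_eq_zero.2 ha]; exact Nat.zero_le _)
  set p := P.natDegree with hp
  have hF : P.roots.toFinset.card = p := by
    rw [Multiset.toFinset_card_of_nodup hnd, hcard]
  set e := P.roots.toFinset.orderEmbOfFin hF with he
  have hemem : ∀ i, e i ∈ P.roots := fun i =>
    Multiset.mem_toFinset.1 (P.roots.toFinset.orderEmbOfFin_mem hF i)
  have hnrP : ∀ x : ℝ, nr P (-x) = (univ.filter (fun i : Fin p => x < e i)).card := by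
    intro x
    unfold nr
    rw [neg_neg]
    have h1 : P.roots = (univ.image e).val := by
      have : univ.image e = P.roots.toFinset := by
        rw [he]; exact P.roots.toFinset.image_orderEmbOfFin_univ hF
      rw [this, Multiset.toFinset_val, Multiset.dedup_eq_self.2 hnd]
    rw [h1, ← Finset.filter_val, Finset.card_val, Finset.filter_image,
      Finset.card_image_of_injective _ e.injective]
  have hsign : ∀ i : Fin p, 0 < (-1 : ℝ) ^ (p - 1 - (i : ℕ)) * R.eval (e i) := by
    intro i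
    have h1 : nr Q (-(e i)) = p - 1 - (i : ℕ) := by
      rw [(hroot _ (hemem i)).1, hnrP]
      have : (univ.filter (fun j : Fin p => e i < e j)) = Finset.Ioi i := by
        ext j; simp
      rw [this, Fin.card_Ioi]
    have h2 : R.eval (e i) = Q.eval (e i) := by
      rw [hR, eval_add, show P.eval (e i) = 0 from (mem_roots hP0).1 (hemem i), zero_add]
    have h3 : Q.eval (- -(e i)) ≠ 0 := by
      rw [neg_neg]
      exact fun h => hc _ (hemem i) ((mem_roots hQ0).2 h)
    have h4 := hQ.parity h3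
    rwa [h1, neg_neg, ← h2] at h4
  -- the roots of `R`
  have hex : ∀ i : Fin p, ∃ u : ℝ, R.eval u = 0 ∧ u < e i ∧ ∀ j < i, e j < u := by
    intro i
    have hcont : ∀ a b : ℝ, ContinuousOn (fun x => R.eval x) (Set.Icc a b) :=
      fun a b => R.continuous.continuousOn
    obtain ⟨b, hb1, hb2, hb3⟩ : ∃ b : ℝ, b < e i ∧ 0 < (-1 : ℝ) ^ (p - (i : ℕ)) * R.eval b ∧
        ∀ j < i, e j ≤ b := by
      by_cases hi : (i : ℕ) = 0
      · obtain ⟨y, hy1, hy2⟩ := exists_big hRc hR0 (e i) (by rw [hRd]; exact i.pos)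
        refine ⟨y, hy1, ?_, fun j hj => absurd (Fin.lt_def.1 hj) (by omega)⟩
        rw [hRd] at hy2
        rw [hi, Nat.sub_zero]; exact hy2
      · have hlt : (i : ℕ) - 1 < p := by omega
        refine ⟨e ⟨(i : ℕ) - 1, hlt⟩, e.lt_iff_lt.2 (Fin.lt_def.2 (by simp; omega)), ?_,
          fun j hj => e.le_iff_le.2 (Fin.le_def.2 (by have := Fin.lt_def.1 hj; simp; omega))⟩
        have := hsign ⟨(i : ℕ) - 1, hlt⟩
        simp only at this
        rwa [show p - 1 - ((i : ℕ) - 1) = p - (i : ℕ) by omega] at this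
    have ha := hsign i
    have hpow : (-1 : ℝ) ^ (p - (i : ℕ)) = - (-1 : ℝ) ^ (p - 1 - (i : ℕ)) := by
      rw [show p - (i : ℕ) = (p - 1 - (i : ℕ)) + 1 by omega, pow_succ]; ring
    rw [hpow] at hb2
    have hz : (0 : ℝ) ∈ (fun x => R.eval x) '' Set.Ioo b (e i) := by
      rcases neg_one_pow_eq_or ℝ (p - 1 - (i : ℕ)) with h | h
      · rw [h] at ha hb2
        exact intermediate_value_Ioo hb1.le (hcont _ _) ⟨by linarith, by linarith⟩
      · rw [h] at ha hb2
        exact intermediate_value_Ioo' hb1.le (hcont _ _) ⟨by linarith, by linarith⟩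
    obtain ⟨u, hu1, hu2⟩ := hz
    exact ⟨u, hu2, hu1.2, fun j hj => lt_of_le_of_lt (hb3 j hj) hu1.1⟩
  choose u hu1 hu2 hu3 using hex
  have humono : StrictMono u := fun i j hij => (hu2 i).trans (hu3 j i hij)
  have hsub : (univ.image u).val ≤ R.roots := by
    rw [Multiset.le_iff_subset (Finset.nodup _)]
    intro a ha
    obtain ⟨i, -, rfl⟩ := Finset.mem_image.1 (Finset.mem_def.2 ha)
    exact (mem_roots hR0).2 (hu1 i)
  have hcu : (univ.image u).val.card = p := by
    rw [Finset.card_val, Finset.card_image_of_injective _ humono.injective, card_univ,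
      Fintype.card_fin]
  have hroots : (univ.image u).val = R.roots := by
    refine Multiset.eq_of_le_of_card_le hsub ?_
    rw [hcu, ← hRd]; exact R.card_roots'
  have hRs : R.Splits := by
    rw [splits_iff_card_roots, ← hroots, hcu, hRd]
  have hR0' : R0 R := ⟨hRc, hRs⟩
  have hnrR : ∀ x : ℝ, nr R (-x) = (univ.filter (fun i : Fin p => x < u i)).card := by
    intro x
    unfold nr
    rw [neg_neg, ← hroots, ← Finset.filter_val, Finset.card_val, Finset.filter_image,
      Finset.card_image_of_injective _ humono.injective]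
  have key : ∀ r : ℝ, nr R r ≤ nr P r ∧ nr P r ≤ nr R r + 1 := by
    intro r
    rw [← neg_neg r, hnrR, hnrP]
    constructor
    · exact card_le_card (fun i hi => by
        simp only [mem_filter, mem_univ, true_and] at hi ⊢; exact hi.trans (hu2 i))
    · set A := univ.filter (fun i : Fin p => -r < e i)
      by_cases hA : A.Nonempty
      · have h1 : A.erase (A.min' hA) ⊆ univ.filter (fun i : Fin p => -r < u i) := by
          intro i hi
          have h2 := mem_of_mem_erase hi
          have h3 := A.min'_lt_of_mem_erase_min' hA hi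
          have h4 := (mem_filter.1 (A.min'_mem hA)).2
          simp only [mem_filter, mem_univ, true_and]
          exact h4.trans (hu3 i _ h3)
        have h2 := card_le_card h1
        rw [card_erase_of_mem (A.min'_mem hA)] at h2
        omega
      · rw [not_nonempty_iff_eq_empty.1 hA]; simp
  refine ⟨hR0', fun r hr => ⟨(key r).1, (key r).2, ?_⟩⟩
  obtain ⟨h1, h2⟩ := hlev r hr
  obtain ⟨h3, h4⟩ := key r
  rcases Nat.lt_or_ge (nr Q r) (nr P r) with h5 | h5
  · omega
  · obtain ⟨r', hr1, hr2, hr3⟩ := generic {P, Q, R} (by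
      intro S hS
      simp only [Finset.mem_insert, Finset.mem_singleton] at hS
      rcases hS with rfl | rfl | rfl <;> assumption) hr
    obtain ⟨gP1, gP2⟩ := hr3 P (by simp)
    obtain ⟨gQ1, gQ2⟩ := hr3 Q (by simp)
    obtain ⟨gR1, gR2⟩ := hr3 R (by simp)
    have sP := hP.parity gP1
    have sQ := hQ.parity gQ1
    have sR := hR0'.parity gR1
    rw [gP2, show nr P r = nr Q r by omega] at sP
    rw [gQ2] at sQ
    rw [gR2, hR, eval_add] at sR
    by_contra hlt
    push Not at hlt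
    have h6 : nr Q r = nr R r + 1 := by omega
    rw [h6, pow_succ] at sP sQ
    linarith

/-- **sums of interlacing polynomials** -/
lemma add_all : ∀ (n : ℕ) (P Q : ℝ[X]), P.natDegree ≤ n → R0 P → R0 Q → P ≠ 0 → Q ≠ 0 →
    (∀ r : ℝ, 0 < r → nr Q r ≤ nr P r ∧ nr P r ≤ nr Q r + 1) →
    R0 (P + Q) ∧ ∀ r : ℝ, 0 < r →
      nr (P + Q) r ≤ nr P r ∧ nr P r ≤ nr (P + Q) r + 1 ∧ nr Q r ≤ nr (P + Q) r := by
  intro n
  induction n with
  | zero =>
    intro P Q hn hP hQ hP0 hQ0 hlev
    refine add_coprime hP hQ hP0 hQ0 hlev (fun a ha => ?_)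
    have h1 := P.card_roots'
    have h2 : 0 < P.roots.card := Multiset.card_pos_iff_exists_mem.2 ⟨a, ha⟩
    omega
  | succ n ih =>
    intro P Q hn hP hQ hP0 hQ0 hlev
    by_cases hc : ∀ a ∈ P.roots, a ∉ Q.roots
    · exact add_coprime hP hQ hP0 hQ0 hlev hc
    push Not at hc
    obtain ⟨a, ha, hb⟩ := hc
    obtain ⟨P1, rfl⟩ := dvd_iff_isRoot.2 ((mem_roots hP0).1 ha)
    obtain ⟨Q1, rfl⟩ := dvd_iff_isRoot.2 ((mem_roots hQ0).1 hb)
    have hP1 : P1 ≠ 0 := right_ne_zero_of_mul hP0
    have hQ1 : Q1 ≠ 0 := right_ne_zero_of_mul hQ0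
    have ha0 := hP.root_nonpos ha
    have hd : ((X - C a) * P1).natDegree = P1.natDegree + 1 := by
      rw [natDegree_mul (X_sub_C_ne_zero a) hP1, natDegree_X_sub_C]; omega
    obtain ⟨h1, h2⟩ := ih P1 Q1 (by omega) hP.dvd hQ.dvd hP1 hQ1 (fun r hr => by
      have := hlev r hr
      rw [nr_mul hP1, nr_mul hQ1] at this
      omega)
    have hS : P1 + Q1 ≠ 0 := by
      intro h
      have h3 := hP.dvd.lead hP1
      have h4 := hQ.dvd.1 P1.natDegree
      have h5 : (P1 + Q1).coeff P1.natDegree = 0 := by rw [h]; simp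
      rw [coeff_add, coeff_natDegree] at h5
      linarith
    have hne : (X - C a) * (P1 + Q1) ≠ 0 := mul_ne_zero (X_sub_C_ne_zero a) hS
    rw [← mul_add]
    refine ⟨R0.mk' (Splits.mul (Splits.X_sub_C a) h1.2) ?_ (fun b hb => ?_), fun r hr => ?_⟩
    · rw [leadingCoeff_mul, leadingCoeff_X_sub_C, one_mul]; exact h1.1 _
    · rw [roots_mul hne, Multiset.mem_add, roots_X_sub_C, Multiset.mem_singleton] at hb
      rcases hb with rfl | hb
      · exact ha0
      · exact h1.root_nonpos hb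
    · have := h2 r hr
      rw [nr_mul hP1, nr_mul hQ1, nr_mul hS]
      omega

lemma IL.refl (h : R0 P) : IL P P := ⟨h, h, fun _ _ _ _ => ⟨le_rfl, Nat.le_succ _⟩⟩

/-- **sums** -/
lemma IL.add (h : IL P Q) : IL P (P + Q) ∧ IL (P + Q) Q := by
  obtain ⟨hP, hQ, hlev⟩ := h
  by_cases hP0 : P = 0
  · subst hP0
    rw [zero_add]
    exact ⟨⟨hP, hQ, fun h => absurd rfl h⟩, IL.refl hQ⟩
  by_cases hQ0 : Q = 0
  · subst hQ0
    rw [add_zero]
    exact ⟨IL.refl hP, ⟨hP, hQ, fun _ h => absurd rfl h⟩⟩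
  obtain ⟨h1, h2⟩ := add_all _ P Q le_rfl hP hQ hP0 hQ0 (hlev hP0 hQ0)
  refine ⟨⟨hP, h1, fun _ _ r hr => ⟨(h2 r hr).1, (h2 r hr).2.1⟩⟩,
    ⟨h1, hQ, fun _ _ r hr => ⟨(h2 r hr).2.2, ?_⟩⟩⟩
  have := h2 r hr
  have := hlev hP0 hQ0 r hr
  omega

lemma IL.R0_add (h : IL P Q) : R0 (P + Q) := h.add.1.2.1

lemma IL.zero_left (h : R0 Q) : IL 0 Q := ⟨R0.zero, h, fun h => absurd rfl h⟩

lemma IL.zero_right (h : R0 P) : IL P 0 := ⟨h, R0.zero, fun _ h => absurd rfl h⟩

/-- multiplication by positive constants -/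
lemma R0.smul (h : R0 P) {a : ℝ} (ha : 0 ≤ a) : R0 (C a * P) :=
  ⟨fun n => by rw [coeff_C_mul]; exact mul_nonneg ha (h.1 n), h.2.C_mul a⟩

lemma nr_smul {a : ℝ} (ha : a ≠ 0) (r : ℝ) : nr (C a * P) r = nr P r := by
  unfold nr; rw [roots_C_mul _ ha]

lemma IL.smul (h : IL P Q) {a b : ℝ} (ha : 0 ≤ a) (hb : 0 ≤ b) : IL (C a * P) (C b * Q) := by
  refine ⟨h.1.smul ha, h.2.1.smul hb, fun h1 h2 r hr => ?_⟩
  have ha' : a ≠ 0 := by rintro rfl; simp at h1
  have hb' : b ≠ 0 := by rintro rfl; simp at h2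
  rw [nr_smul ha', nr_smul hb']
  exact h.2.2 (right_ne_zero_of_mul h1) (right_ne_zero_of_mul h2) r hr

/-! ### monomials -/

lemma R0.monomial {a : ℝ} (ha : 0 ≤ a) (n : ℕ) : R0 (C a * X ^ n) :=
  ⟨fun m => by rw [coeff_C_mul, coeff_X_pow]; split_ifs <;> simp [ha], Splits.C_mul_X_pow a n⟩

lemma nr_monomial {a : ℝ} (ha : a ≠ 0) (n : ℕ) {r : ℝ} (hr : 0 < r) :
    nr (C a * X ^ n) r = n := by
  unfold nr
  rw [roots_C_mul_X_pow ha, Multiset.filter_eq_self.2, Multiset.card_nsmul,
    Multiset.card_singleton, mul_one]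
  intro b hb
  have := Multiset.mem_of_mem_nsmul hb
  rw [Multiset.mem_singleton] at this
  rw [this]; linarith

lemma IL.monomial {a b : ℝ} (ha : 0 ≤ a) (hb : 0 ≤ b) (n : ℕ) :
    IL (C a * X ^ n) (C b * X ^ n) := by
  refine ⟨R0.monomial ha n, R0.monomial hb n, fun h1 h2 r hr => ?_⟩
  have ha' : a ≠ 0 := by rintro rfl; simp at h1
  have hb' : b ≠ 0 := by rintro rfl; simp at h2
  rw [nr_monomial ha' n hr, nr_monomial hb' n hr]
  omega

lemma IL.monomial_iff {a b : ℝ} (ha : 0 < a) (hb : 0 < b) (m n : ℕ) :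
    IL (C a * X ^ m) (C b * X ^ n) ↔ n ≤ m ∧ m ≤ n + 1 := by
  have h1 : C a * X ^ m ≠ (0 : ℝ[X]) :=
    mul_ne_zero (C_ne_zero.2 ha.ne') (pow_ne_zero _ X_ne_zero)
  have h2 : C b * X ^ n ≠ (0 : ℝ[X]) :=
    mul_ne_zero (C_ne_zero.2 hb.ne') (pow_ne_zero _ X_ne_zero)
  constructor
  · intro h
    have := h.2.2 h1 h2 1 one_pos
    rwa [nr_monomial ha.ne' m one_pos, nr_monomial hb.ne' n one_pos] at this
  · intro h
    refine ⟨R0.monomial ha.le m, R0.monomial hb.le n, fun _ _ r hr => ?_⟩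
    rw [nr_monomial ha.ne' m hr, nr_monomial hb.ne' n hr]
    exact h

/-- a polynomial of `R0` whose exponents have the same parity is a monomial -/
lemma R0.mono_of_even (h : R0 P)
    (hp : ∀ i j, P.coeff i ≠ 0 → P.coeff j ≠ 0 → i % 2 = j % 2) :
    ∃ (a : ℝ) (n : ℕ), 0 ≤ a ∧ P = C a * X ^ n := by
  by_cases h0 : P = 0
  · exact ⟨0, 0, le_rfl, by simp [h0]⟩
  have hl : P.coeff P.natDegree ≠ 0 := by simpa using h0
  have hev : ∀ x : ℝ, P.eval (-x) = (-1) ^ P.natDegree * P.eval x := by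
    intro x
    rw [eval_eq_sum_range, eval_eq_sum_range, mul_sum]
    refine sum_congr rfl (fun i _ => ?_)
    by_cases hi : P.coeff i = 0
    · rw [hi]; ring
    · have := hp i P.natDegree hi hl
      have e : (-1 : ℝ) ^ i = (-1) ^ P.natDegree := by
        rcases Nat.even_or_odd i with h1 | h1
        · have h2 : Even P.natDegree := by rw [Nat.even_iff] at h1 ⊢; omega
          rw [h1.neg_one_pow, h2.neg_one_pow]
        · have h2 : Odd P.natDegree := by rw [Nat.odd_iff] at h1 ⊢; omega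
          rw [h1.neg_one_pow, h2.neg_one_pow]
      rw [neg_pow, e]; ring
  have hz : ∀ a ∈ P.roots, a = 0 := by
    intro a ha
    have h1 := h.root_nonpos ha
    have h2 : -a ∈ P.roots := by
      rw [mem_roots h0, IsRoot.def, hev, show P.eval a = 0 from (mem_roots h0).1 ha, mul_zero]
    have h3 := h.root_nonpos h2
    linarith
  refine ⟨P.leadingCoeff, P.natDegree, (h.lead h0).le, ?_⟩
  conv_lhs => rw [h.2.eq_prod_roots]
  have e : P.roots = Multiset.replicate P.natDegree 0 := by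
    rw [Multiset.eq_replicate]
    exact ⟨splits_iff_card_roots.1 h.2, hz⟩
  conv_lhs => rw [e]
  rw [Multiset.map_replicate, Multiset.prod_replicate, map_zero, sub_zero]

/-! ### zero-freeness in the sector -/

lemma pow_four_ne {y : ℂ} (hy : y ≠ 0) (ha : |y.arg| < Real.pi / 4) {s : ℝ} (hs : s ≤ 0) :
    y ^ 4 ≠ (s : ℂ) := by
  intro h
  have h2 : (y * y).arg = y.arg + y.arg := by
    have := abs_lt.1 ha
    have hpi := Real.pi_pos
    exact Complex.arg_mul hy hy ⟨by linarith, by linarith⟩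
  have h3 : 0 < (y * y).re := by
    have h4 : |(y * y).arg| < Real.pi / 2 := by
      rw [h2]
      have := abs_lt.1 ha
      rw [abs_lt]; constructor <;> linarith
    rcases Complex.abs_arg_lt_pi_div_two_iff.1 h4 with h5 | h5
    · exact h5
    · exact absurd h5 (mul_ne_zero hy hy)
  set q := y * y with hq
  have h5 : q * q = (s : ℂ) := by rw [← h, hq]; ring
  have h6 : q.re * q.re - q.im * q.im = s := by
    have := congrArg Complex.re h5; simpa using this
  have h7 : q.re * q.im + q.im * q.re = 0 := by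
    have := congrArg Complex.im h5; simpa using this
  have h8 : q.im = 0 := by
    have : q.re * q.im = 0 := by linarith
    rcases mul_eq_zero.1 this with h | h
    · exact absurd h h3.ne'
    · exact h
  rw [h8] at h6
  nlinarith

lemma R0.eval_ne (h : R0 P) (h0 : P ≠ 0) {y : ℂ} (hy : y ≠ 0) (ha : |y.arg| < Real.pi / 4) :
    (P.map (algebraMap ℝ ℂ)).eval (y ^ 4) ≠ 0 := by
  intro hz
  have hm : P.map (algebraMap ℝ ℂ) ≠ 0 :=
    (Polynomial.map_ne_zero_iff (algebraMap ℝ ℂ).injective).2 h0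
  have h1 : y ^ 4 ∈ (P.map (algebraMap ℝ ℂ)).roots := (mem_roots hm).2 hz
  rw [h.2.roots_map_of_injective (algebraMap ℝ ℂ).injective] at h1
  obtain ⟨s, hs, he⟩ := Multiset.mem_map.1 h1
  exact pow_four_ne hy ha (h.root_nonpos hs) (by rw [← he]; rfl)

end Pool.Agent.ZM
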