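import Mathlib
import Pool.Agent.ZM.Inter

set_option autoImplicit false
open Finset Polynomial

/-! # The 2 × 2 node

`A, B, C, D` = `F_LL, F_LR, F_RL, F_RR`; `node` is the whole induction step of `(ALT) ⇒ (ZF)`. -/

namespace Pool.Agent.ZM

/-- signs at a generic point -/
lemma node_core {a b c d p q : ℕ} {A B C D : ℝ} (h1 : b ≤ a) (h1' : a ≤ b + 1) (h2 : d ≤ c)
    (h2' : c ≤ d + 1) (h3 : c ≤ a) (h3' : a ≤ c + 1) (h4 : d ≤ b) (h4' : b ≤ d + 1)
    (hp : b ≤ p) (hp' : p ≤ a) (hq : d ≤ q) (hq' : q ≤ c)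
    (sA : 0 < (-1 : ℝ) ^ a * A) (sB : 0 < (-1 : ℝ) ^ b * B) (sC : 0 < (-1 : ℝ) ^ c * C)
    (sD : 0 < (-1 : ℝ) ^ d * D) (sp : 0 < (-1 : ℝ) ^ p * (A + B)) (sq : 0 < (-1 : ℝ) ^ q * (C + D))
    (hΔ : A * D - B * C ≤ 0) : q ≤ p ∧ p ≤ q + 1 := by
  by_contra hcon
  have he : (-1 : ℝ) ^ d * (-1 : ℝ) ^ d = 1 := by
    rw [← pow_add, ← two_mul, pow_mul]; norm_num
  have hcase : (a = d + 1 ∧ b = d ∧ c = d + 1 ∧ p = d ∧ q = d + 1) ∨
      (a = d + 2 ∧ b = d + 1 ∧ c = d + 1 ∧ p = d + 2 ∧ q = d) := by omega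
  set e : ℝ := (-1 : ℝ) ^ d with hedef
  rcases hcase with ⟨rfl, rfl, rfl, rfl, rfl⟩ | ⟨rfl, rfl, rfl, rfl, rfl⟩
  · rw [pow_succ, ← hedef] at sA sC sq
    have k1 : 0 < -(e * A) := by linarith
    have k2 : 0 < -(e * C) := by linarith
    have k3 : -(e * A) < e * B := by linarith
    have k4 : e * D < -(e * C) := by linarith
    have k5 : (-(e * A)) * (e * D) < (e * B) * (-(e * C)) := by
      apply mul_lt_mul'' k3 k4 k1.le sD.le
    have k6 : (-(e * A)) * (e * D) = -(A * D) := by linear_combination (-(A * D)) * he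
    have k7 : (e * B) * (-(e * C)) = -(B * C) := by linear_combination (-(B * C)) * he
    rw [k6, k7] at k5
    linarith
  · rw [pow_add, ← hedef] at sA sp
    rw [pow_succ, ← hedef] at sB sC
    norm_num at sA sp
    have k1 : 0 < -(e * B) := by linarith
    have k2 : 0 < -(e * C) := by linarith
    have k3 : -(e * B) < e * A := by linarith
    have k4 : -(e * C) < e * D := by linarith
    have k5 : (-(e * B)) * (-(e * C)) < (e * A) * (e * D) := mul_lt_mul'' k3 k4 k1.le k2.le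
    have k6 : (-(e * B)) * (-(e * C)) = B * C := by linear_combination (B * C) * he
    have k7 : (e * A) * (e * D) = A * D := by linear_combination (A * D) * he
    rw [k6, k7] at k5
    linarith

lemma par_odd {m n : ℕ} {u v : ℝ} (hu : 0 < (-1 : ℝ) ^ m * u) (hv : 0 < (-1 : ℝ) ^ n * v)
    (h : u * v ≤ 0) : (m + n) % 2 = 1 := by
  by_contra hcon
  have h0 : Even (m + n) := Nat.even_iff.2 (by omega)
  have h1 := mul_pos hu hv
  have h2 : (-1 : ℝ) ^ m * u * ((-1 : ℝ) ^ n * v) = (-1 : ℝ) ^ (m + n) * (u * v) := by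
    rw [pow_add]; ring
  rw [h2, h0.neg_one_pow] at h1
  linarith

lemma par_even {m n : ℕ} {u v : ℝ} (hu : 0 < (-1 : ℝ) ^ m * u) (hv : 0 < (-1 : ℝ) ^ n * v)
    (h : 0 ≤ u * v) : (m + n) % 2 = 0 := by
  by_contra hcon
  have h0 : Odd (m + n) := Nat.odd_iff.2 (by omega)
  have h1 := mul_pos hu hv
  have h2 : (-1 : ℝ) ^ m * u * ((-1 : ℝ) ^ n * v) = (-1 : ℝ) ^ (m + n) * (u * v) := by
    rw [pow_add]; ring
  rw [h2, h0.neg_one_pow] at h1
  linarith

/-- **The 2 × 2 node.** -/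
theorem node {A B C D : ℝ[X]} (hAB : IL A B) (hCD : IL C D) (hAC : IL A C) (hBD : IL B D)
    (hΔ : ∀ r : ℝ, 0 < r → (A * D - B * C).eval (-r) ≤ 0)
    (l1 : B = 0 → C = 0 → IL A D) (l2 : A = 0 → D = 0 → IL B C) : IL (A + B) (C + D) := by
  classical
  have hp1 := hAB.add
  have hq1 := hCD.add
  refine ⟨hp1.2.1, hq1.2.1, fun hP hQ r0 hr0 => ?_⟩
  -- a generic point
  obtain ⟨r, hr, -, hg⟩ := generic (({A, B, C, D, A + B, C + D} : Finset ℝ[X]).filter (· ≠ 0))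
    (fun P hP => (mem_filter.1 hP).2) hr0
  have gen : ∀ P, P ∈ ({A, B, C, D, A + B, C + D} : Finset ℝ[X]) → P ≠ 0 →
      P.eval (-r) ≠ 0 ∧ nr P r = nr P r0 := fun P h1 h2 => hg P (mem_filter.2 ⟨h1, h2⟩)
  rw [← (gen (A + B) (by simp) hP).2, ← (gen (C + D) (by simp) hQ).2]
  have sP := hp1.2.1.parity (gen (A + B) (by simp) hP).1
  have sQ := hq1.2.1.parity (gen (C + D) (by simp) hQ).1
  have hD := hΔ r hr
  simp only [eval_add, eval_sub, eval_mul] at sP sQ hD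
  by_cases hA0 : A = 0
  · by_cases hB0 : B = 0
    · exact absurd (by rw [hA0, hB0, add_zero]) hP
    by_cases hD0 : D = 0
    · have hC0 : C ≠ 0 := fun h => hQ (by rw [h, hD0, add_zero])
      have := (l2 hA0 hD0).2.2 hB0 hC0 r hr
      rw [hA0, hD0, zero_add, add_zero]; exact this
    by_cases hC0 : C = 0
    · rw [hA0, hC0, zero_add, zero_add]; exact hBD.2.2 hB0 hD0 r hr
    have sB := hAB.2.1.parity (gen B (by simp) hB0).1
    have sC := hCD.1.parity (gen C (by simp) hC0).1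
    have e1 := par_even sB sC (by rw [hA0] at hD; simp only [eval_zero] at hD; linarith)
    have e2 := hBD.2.2 hB0 hD0 r hr
    have e3 := hCD.2.2 hC0 hD0 r hr
    have e4 := hq1.1.2.2 hC0 hQ r hr
    have e5 := hq1.2.2.2 hQ hD0 r hr
    rw [hA0, zero_add]
    omega
  have sA := hAB.1.parity (gen A (by simp) hA0).1
  by_cases hB0 : B = 0
  · by_cases hC0 : C = 0
    · have hD0 : D ≠ 0 := fun h => hQ (by rw [h, hC0, add_zero])
      rw [hB0, hC0, zero_add, add_zero]; exact (l1 hB0 hC0).2.2 hA0 hD0 r hr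
    by_cases hD0 : D = 0
    · rw [hB0, hD0, add_zero, add_zero]; exact hAC.2.2 hA0 hC0 r hr
    have sD := hCD.2.1.parity (gen D (by simp) hD0).1
    have e1 := par_odd sA sD (by rw [hB0] at hD; simp only [eval_zero] at hD; linarith)
    have e2 := hAC.2.2 hA0 hC0 r hr
    have e3 := hCD.2.2 hC0 hD0 r hr
    have e4 := hq1.1.2.2 hC0 hQ r hr
    have e5 := hq1.2.2.2 hQ hD0 r hr
    rw [hB0, add_zero]
    omega
  have sB := hAB.2.1.parity (gen B (by simp) hB0).1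
  have f1 := hAB.2.2 hA0 hB0 r hr
  have f2 := hp1.1.2.2 hA0 hP r hr
  have f3 := hp1.2.2.2 hP hB0 r hr
  by_cases hC0 : C = 0
  · have hD0 : D ≠ 0 := fun h => hQ (by rw [h, hC0, add_zero])
    have sD := hCD.2.1.parity (gen D (by simp) hD0).1
    have e1 := par_odd sA sD (by rw [hC0] at hD; simp only [eval_zero] at hD; linarith)
    have e2 := hBD.2.2 hB0 hD0 r hr
    rw [hC0, zero_add]
    omega
  have sC := hCD.1.parity (gen C (by simp) hC0).1
  by_cases hD0 : D = 0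
  · have e1 := par_even sB sC (by rw [hD0] at hD; simp only [eval_zero] at hD; linarith)
    have e2 := hAC.2.2 hA0 hC0 r hr
    rw [hD0, add_zero]
    omega
  have sD := hCD.2.1.parity (gen D (by simp) hD0).1
  have e1 := hAC.2.2 hA0 hC0 r hr
  have e2 := hBD.2.2 hB0 hD0 r hr
  have e3 := hCD.2.2 hC0 hD0 r hr
  have e4 := hq1.1.2.2 hC0 hQ r hr
  have e5 := hq1.2.2.2 hQ hD0 r hr
  exact node_core f1.1 f1.2 e3.1 e3.2 e1.1 e1.2 e2.1 e2.2 f3.1 f2.1 e5.1 e4.1 sA sB sC sD sP sQ hD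

/-- the sign of the coefficients of `(ALT)` gives the sign on the negative axis -/
theorem eval_nonpos {P : ℝ[X]} (h : ∀ k : ℕ, 0 ≤ (-1 : ℝ) ^ (k + 1) * P.coeff k) {r : ℝ}
    (hr : 0 < r) : P.eval (-r) ≤ 0 := by
  rw [eval_eq_sum_range]
  apply sum_nonpos
  intro k _
  have h1 : P.coeff k * (-r) ^ k = -((-1 : ℝ) ^ (k + 1) * P.coeff k * r ^ k) := by
    rw [neg_pow r k, pow_succ]; ring
  rw [h1]
  have := mul_nonneg (h k) (pow_nonneg hr.le k)
  linarith

end Pool.Agent.ZM
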