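import Pool.Agent.ZM.LockZ

set_option autoImplicit false
open Finset Polynomial

/-! # The partition function: admissible shift, recursion, constant index (MP_fe58d8_pr, (ZM)) -/

namespace Pool.Agent.ZM

open Pool.Agent.H75.Perc Pool.Agent.H75.TwoArm Pool.Agent.H69.Q1 Pool.Agent.Q1 Pool.Agent.ZF

variable {c0 c x z v : ℤ × ℤ} {t : ℤ × ℤ → ℝ} {M : ℤ} {A C A' C' : Finset (ℤ × ℤ)}

lemma ty_range (a : ℤ × ℤ) : 0 ≤ ty a ∧ ty a ≤ 3 ∧ ty a % 4 = ty a := by
  unfold ty
  split_ifs <;> norm_num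

lemma sum_mod (w : Finset (ℤ × ℤ)) (n : ℕ) :
    (ty c0 + ∑ j ∈ range n, H75.Perc.del w ((nx w)^[j] c0)) % 4 = ty ((nx w)^[n] c0) := by
  induction n with
  | zero => simpa using (ty_range c0).2.2
  | succ n ih =>
    rw [sum_range_succ, Function.iterate_succ_apply', ← add_assoc]
    exact ty_nx w _ _ ih

/-- the index is determined modulo `4` by the types of the corners -/
lemma Kw_mod {w : Finset (ℤ × ℤ)} {k : ℤ} (h : Kw c0 c w = some k) : (ty c0 + k) % 4 = ty c := by
  obtain ⟨n, hn, rfl⟩ := idx_eq_some.1 h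
  rw [sum_mod w n, hn.2.1]

/-- **an admissible shift exists** -/
theorem exists_sh (_h : PN c0 c A C) : ∃ M, Sh c0 c M A C := by
  obtain ⟨B, hB⟩ := ((Icc A C).image fun w => -(Kw c0 c w).getD 0).exists_le
  refine ⟨ty c0 - ty c + 4 * (|B| + 1), fun w hw k hk => ?_⟩
  have h1 : -k ≤ B := by
    have := hB _ (mem_image_of_mem _ hw)
    simpa only [hk, Option.getD_some] using this
  have h2 := Kw_mod hk
  have h3 := ty_range c0
  have h4 := ty_range c
  have h5 := le_abs_self B
  have h6 := abs_nonneg B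
  constructor
  · omega
  · omega

/-- **recursion of the partition function** -/
theorem Z_split (_hAC : A ⊆ C) (hv : v ∈ C \ A) :
    Z c0 c t M A C = Z c0 c t M (insert v A) C + Z c0 c t M A (C.erase v) := by
  have hv' := mem_sdiff.1 hv
  unfold Z
  rw [← sum_union]
  · refine sum_congr ?_ fun _ _ => rfl
    ext w
    simp only [mem_union, mem_Icc]
    constructor
    · rintro ⟨h1, h2⟩
      by_cases hw : v ∈ w
      · exact Or.inl ⟨insert_subset hw h1, h2⟩
      · exact Or.inr ⟨h1, subset_erase.2 ⟨h2, hw⟩⟩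
    · rintro (⟨h1, h2⟩ | ⟨h1, h2⟩)
      · exact ⟨(subset_insert _ _).trans h1, h2⟩
      · exact ⟨h1, h2.trans (erase_subset _ _)⟩
  · rw [disjoint_left]
    intro w h1 h2
    rw [mem_Icc] at h1 h2
    exact notMem_erase v C (h2.2 (h1.1 (mem_insert_self _ _)))

/-- an alive state makes the partition function nonzero -/
theorem Z_ne_zero (ht : ∀ e, 0 < t e) {w : Finset (ℤ × ℤ)} (hw : w ∈ Icc A C)
    (h : Kw c0 c w ≠ none) : Z c0 c t M A C ≠ 0 := by
  obtain ⟨k, hk⟩ := Option.ne_none_iff_exists'.1 h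
  intro h0
  have := LockZAux.Z_pos (M := M) ht hw hk
  rw [h0] at this
  simp at this

/-- **constant index**: the partition functions of all sub-cubes are multiples of one monomial -/
theorem Z_konst (h : Konst c0 c A C) (ht : ∀ e, 0 < t e) (M : ℤ) :
    ∃ m : ℕ, ∀ A' C', A ⊆ A' → C' ⊆ C →
      ∃ a : ℝ, 0 ≤ a ∧ Z c0 c t M A' C' = Polynomial.C a * X ^ m := by
  classical
  obtain ⟨k, hk⟩ := h
  refine ⟨((k + M) / 4).toNat, fun A' C' h1 h2 =>
    ⟨∑ w ∈ Icc A' C', if Kw c0 c w = none then 0 else ∏ e ∈ w, t e,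
      sum_nonneg fun w _ => ?_, ?_⟩⟩
  · split_ifs
    · exact le_rfl
    · exact prod_nonneg fun e _ => (ht e).le
  · unfold Z
    rw [map_sum, sum_mul]
    refine sum_congr rfl fun w hw => ?_
    rw [mem_Icc] at hw
    cases hl : Kw c0 c w with
    | none => simp [mon]
    | some l =>
      rw [hk w (mem_Icc.2 ⟨h1.trans hw.1, hw.2.trans h2⟩) l hl]
      simp [mon]

end Pool.Agent.ZM
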