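import Mathlib
import Pool.Agent.ZM.Node
import Pool.Agent.ZM.ZBase
import Pool.Agent.ZM.Count
import Pool.Agent.ZF.Box2Z

set_option autoImplicit false
open Finset Polynomial

/-! # (ALT) implies zero-freeness for all plane environments

`st_all`: real-rootedness and interlacing at the first random label of either leg, by induction on the
number of random labels. `zfe_of_alt : ALTHyp → ZFE`. -/

namespace Pool.Agent.ZM

open Pool.Agent.H75.Perc Pool.Agent.H75.TwoArm Pool.Agent.H69.Q1 Pool.Agent.Q1 Pool.Agent.ZF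
open Pool.Agent.H75.TwoArm.StrandAux hiding vx_nxC
open Pool.Agent.Q1.M6c (PlaneEnv)

variable {c0 c x z : ℤ × ℤ} {A C : Finset (ℤ × ℤ)} {t : ℤ × ℤ → ℝ} {M : ℤ}

lemma St.of_konst (h : Konst c0 c A C) (ht : ∀ e, 0 < t e) : St c0 c t M A C := by
  obtain ⟨m, hm⟩ := Z_konst h ht M
  refine ⟨?_, ?_, ?_⟩
  · obtain ⟨a, ha, e⟩ := hm A C (Subset.refl _) (Subset.refl _)
    rw [e]
    exact (IL.monomial ha ha m).1
  · intro x _
    obtain ⟨a, ha, e⟩ := hm (insert x A) C (subset_insert _ _) (Subset.refl _)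
    obtain ⟨b, hb, e'⟩ := hm A (C.erase x) (Subset.refl _) (erase_subset _ _)
    rw [e, e']
    exact IL.monomial ha hb m
  · intro z _
    obtain ⟨a, ha, e⟩ := hm (insert z A) C (subset_insert _ _) (Subset.refl _)
    obtain ⟨b, hb, e'⟩ := hm A (C.erase z) (Subset.refl _) (erase_subset _ _)
    rw [e, e']
    exact IL.monomial hb ha m

lemma card_left {v : ℤ × ℤ} (hv : v ∈ C \ A) : (C \ insert v A).card < (C \ A).card := by
  apply card_lt_card
  rw [ssubset_iff_of_subset (sdiff_subset_sdiff (Subset.refl _) (subset_insert _ _))]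
  exact ⟨v, hv, fun h => (mem_sdiff.1 h).2 (mem_insert_self _ _)⟩

lemma card_right {v : ℤ × ℤ} (hv : v ∈ C \ A) : (C.erase v \ A).card < (C \ A).card := by
  apply card_lt_card
  rw [ssubset_iff_of_subset (sdiff_subset_sdiff (erase_subset _ _) (Subset.refl _))]
  exact ⟨v, hv, fun h => (mem_erase.1 (mem_sdiff.1 h).1).1 rfl⟩

/-- **the induction step** -/
lemma St.step (hA : ALTHyp) (ht : ∀ e, 0 < t e) (h : PN c0 c A C) (hM : Sh c0 c M A C)
    (hx : FirstO c0 c A C x) (hz : FirstI c0 c A C z) (hxz : x ≠ z)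
    (ih : ∀ A' C' : Finset (ℤ × ℤ), A ⊆ A' → A' ⊆ C' → C' ⊆ C → (C' \ A').card < (C \ A).card →
      St c0 c t M A' C') : St c0 c t M A C := by
  have hxm : x ∈ C \ A := hx.mem
  have hzm : z ∈ C \ A := hz.mem
  have hxC := (mem_sdiff.1 hxm).1
  have hxA := (mem_sdiff.1 hxm).2
  have hzC := (mem_sdiff.1 hzm).1
  have hzA := (mem_sdiff.1 hzm).2
  -- the four neighbours
  have iA1 : insert x A ⊆ C := insert_subset hxC h.hAC
  have iA2 : A ⊆ C.erase x := subset_erase.2 ⟨h.hAC, hxA⟩
  have iA3 : insert z A ⊆ C := insert_subset hzC h.hAC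
  have iA4 : A ⊆ C.erase z := subset_erase.2 ⟨h.hAC, hzA⟩
  have s1 := ih (insert x A) C (subset_insert _ _) iA1 (Subset.refl _) (card_left hxm)
  have s2 := ih A (C.erase x) (Subset.refl _) iA2 (erase_subset _ _) (card_right hxm)
  have s3 := ih (insert z A) C (subset_insert _ _) iA3 (Subset.refl _) (card_left hzm)
  have s4 := ih A (C.erase z) (Subset.refl _) iA4 (erase_subset _ _) (card_right hzm)
  -- the four interlacings
  have i1 : IL (Z c0 c t M (insert x A) (C.erase z)) (Z c0 c t M (insert z (insert x A)) C) :=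
    s1.2.2 z (hz.left hxm hxz)
  have i2 : IL (Z c0 c t M A ((C.erase x).erase z)) (Z c0 c t M (insert z A) (C.erase x)) :=
    s2.2.2 z (hz.right hxz)
  have i3 : IL (Z c0 c t M (insert x A) (C.erase z)) (Z c0 c t M A ((C.erase x).erase z)) := by
    have := s4.2.1 x (hx.right hxz.symm)
    rwa [erase_right_comm] at this
  have i4 : IL (Z c0 c t M (insert z (insert x A)) C) (Z c0 c t M (insert z A) (C.erase x)) := by
    have := s3.2.1 x (hx.left hzm hxz.symm)
    rwa [Finset.insert_comm] at this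
  -- the sign
  have hd : ∀ r : ℝ, 0 < r → (Z c0 c t M (insert x A) (C.erase z) *
      Z c0 c t M (insert z A) (C.erase x) - Z c0 c t M (insert z (insert x A)) C *
        Z c0 c t M A ((C.erase x).erase z)).eval (-r) ≤ 0 := fun r hr =>
    eval_nonpos (hA c0 c A C h x z hx hz hxz t ht M hM) hr
  have hd' : ∀ r : ℝ, 0 < r → (Z c0 c t M (insert x A) (C.erase z) *
      Z c0 c t M (insert z A) (C.erase x) - Z c0 c t M A ((C.erase x).erase z) *
        Z c0 c t M (insert z (insert x A)) C).eval (-r) ≤ 0 := fun r hr => by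
    rw [mul_comm (Z c0 c t M A ((C.erase x).erase z))]; exact hd r hr
  have IH : ∀ v ∈ C \ A, St c0 c t M (insert v A) C ∧ St c0 c t M A (C.erase v) := fun v hv =>
    ⟨ih _ _ (subset_insert _ _) (insert_subset (mem_sdiff.1 hv).1 h.hAC) (Subset.refl _)
      (card_left hv), ih _ _ (Subset.refl _) (subset_erase.2 ⟨h.hAC, (mem_sdiff.1 hv).2⟩)
      (erase_subset _ _) (card_right hv)⟩
  have l1 := lock1 hA ht h hM hx hz hxz IH
  have l2 := lock2 hA ht h hM hx hz hxz IH
  have n1 := node i1 i2 i3 i4 hd l1 (fun a b => (l2 a b).1)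
  have n2 := node i3 i4 i1 i2 hd' (fun a b => l1 b a) (fun a b => (l2 a b).2)
  -- the sums
  have e1 : Z c0 c t M (insert x A) C = Z c0 c t M (insert x A) (C.erase z) +
      Z c0 c t M (insert z (insert x A)) C := by
    rw [Z_split iA1 (mem_sdiff.2 ⟨hzC, fun h => (mem_insert.1 h).elim (fun h => hxz h.symm) hzA⟩),
      add_comm]
  have e2 : Z c0 c t M A (C.erase x) = Z c0 c t M A ((C.erase x).erase z) +
      Z c0 c t M (insert z A) (C.erase x) := by
    rw [Z_split iA2 (mem_sdiff.2 ⟨mem_erase.2 ⟨hxz.symm, hzC⟩, hzA⟩), add_comm]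
  have e3 : Z c0 c t M (insert z A) C = Z c0 c t M (insert z (insert x A)) C +
      Z c0 c t M (insert z A) (C.erase x) := by
    rw [Z_split iA3 (mem_sdiff.2 ⟨hxC, fun h => (mem_insert.1 h).elim (fun h => hxz h) hxA⟩),
      Finset.insert_comm]
  have e4 : Z c0 c t M A (C.erase z) = Z c0 c t M (insert x A) (C.erase z) +
      Z c0 c t M A ((C.erase x).erase z) := by
    rw [Z_split iA4 (mem_sdiff.2 ⟨mem_erase.2 ⟨hxz, hxC⟩, hxA⟩), erase_right_comm]
  rw [← e1, ← e2] at n1
  rw [← e3, ← e4] at n2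
  refine ⟨?_, ?_, ?_⟩
  · rw [Z_split h.hAC hxm]
    exact n1.add.1.2.1
  · intro x' hx'
    rw [hx'.uniq hx]
    exact n1
  · intro z' hz'
    rw [hz'.uniq hz]
    exact n2

/-- **Real-rootedness and interlacing** for all partition functions of the plane class. -/
theorem st_all (hA : ALTHyp) (ht : ∀ e, 0 < t e) (h : PN c0 c A C) (hM : Sh c0 c M A C) :
    St c0 c t M A C := by
  suffices H : ∀ n : ℕ, ∀ A C : Finset (ℤ × ℤ), (C \ A).card < n → PN c0 c A C → Sh c0 c M A C →
      St c0 c t M A C from H _ A C (Nat.lt_succ_self _) h hM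
  intro n
  induction n with
  | zero => intro A C hn; exact absurd hn (Nat.not_lt_zero _)
  | succ n ih =>
    intro A C hn h hM
    rcases konst_or h with hk | ⟨x, z, hx, hz⟩
    · exact St.of_konst hk ht
    · by_cases hxz : x = z
      · rw [← hxz] at hz
        exact St.of_konst (konst_same h hx hz) ht
      · exact St.step hA ht h hM hx hz hxz fun A' C' h1 h2 h3 h4 =>
          ih A' C' (lt_of_lt_of_le h4 (Nat.lt_succ_iff.1 hn)) (h.sub h2 h3) (hM.sub h1 h3)

/-! ### Zero-freeness -/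

/-- the polynomial at `y ^ 4` -/
lemma eval_Z (hM : Sh c0 c M A C) (hAC : A ⊆ C) {y : ℂ} (hy : y ≠ 0) :
    ((Z c0 c t M A C).map (algebraMap ℝ ℂ)).eval (y ^ 4) = (∏ e ∈ A, (t e : ℂ)) * y ^ M *
      ∑ ω ∈ (C \ A).powerset, (∏ e ∈ ω, (t e : ℂ)) * Dat.vl y (Dat.KE A ω c0 c) := by
  unfold Z
  rw [Finset.Icc_eq_image_powerset hAC, Finset.sum_image, Polynomial.map_sum,
    Polynomial.eval_finsetSum, mul_sum]
  · refine sum_congr rfl fun ω hω => ?_
    rw [mem_powerset] at hω
    have hd : Disjoint A ω := by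
      rw [disjoint_left]
      intro a ha ha'
      exact (mem_sdiff.1 (hω ha')).2 ha
    have hm : A ∪ ω ∈ Icc A C :=
      mem_Icc.2 ⟨subset_union_left, union_subset hAC (hω.trans sdiff_subset)⟩
    have hK : Kw c0 c (A ∪ ω) = Dat.KE A ω c0 c := rfl
    rw [prod_union hd, hK, Polynomial.map_mul, Polynomial.eval_mul, Polynomial.map_C,
      Polynomial.eval_C]
    rcases hk : Dat.KE A ω c0 c with _ | k
    · simp [mon, Dat.vl]
    · obtain ⟨h1, h2⟩ := hM _ hm k (hK.trans hk)
      have h3 : ((((k + M) / 4).toNat : ℕ) : ℤ) = (k + M) / 4 := Int.toNat_of_nonneg (by omega)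
      have h4 : (y ^ 4) ^ ((k + M) / 4).toNat = y ^ k * y ^ M := by
        rw [← pow_mul, ← zpow_natCast, ← zpow_add₀ hy]
        congr 1
        push_cast [h3]
        omega
      simp only [mon, Dat.vl, Polynomial.map_pow, Polynomial.map_X, Polynomial.eval_pow,
        Polynomial.eval_X, h4]
      simp only [Complex.coe_algebraMap]
      push_cast
      ring
  · intro ω hω ω' hω' e
    have hω1 : ω ⊆ C \ A := mem_powerset.1 (mem_coe.1 hω)
    have hω2 : ω' ⊆ C \ A := mem_powerset.1 (mem_coe.1 hω')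
    simp only at e
    ext a
    by_cases ha : a ∈ A
    · exact ⟨fun h => absurd ha (mem_sdiff.1 (hω1 h)).2, fun h => absurd ha (mem_sdiff.1 (hω2 h)).2⟩
    · have := congrArg (a ∈ ·) e
      simpa [ha] using this

/-- **Zero-freeness for labels**: `A` open, labels outside `C` closed. -/
theorem zf_labels (hA : ALTHyp) (h : PN c0 c A C) (ht : ∀ e, 0 < t e) {y : ℂ} (hy : y ≠ 0)
    (ha : |y.arg| < Real.pi / 4) (hex : ∃ ω ⊆ C \ A, Dat.KE A ω c0 c ≠ none) :
    ∑ ω ∈ (C \ A).powerset, (∏ e ∈ ω, (t e : ℂ)) * Dat.vl y (Dat.KE A ω c0 c) ≠ 0 := by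
  obtain ⟨M, hM⟩ := exists_sh h
  obtain ⟨ω, hω, hK⟩ := hex
  obtain ⟨k, hk⟩ := Option.ne_none_iff_exists'.1 hK
  have h1 : Z c0 c t M A C ≠ 0 := by
    intro h0
    have := LockZAux.Z_pos (M := M) ht (w := A ∪ ω)
      (mem_Icc.2 ⟨subset_union_left, union_subset h.hAC (hω.trans sdiff_subset)⟩) hk
    rw [h0] at this
    simp at this
  have h2 := (st_all hA ht h hM).1.eval_ne h1 hy ha
  rw [eval_Z hM h.hAC hy] at h2
  exact (mul_ne_zero_iff.1 h2).2

/-- **(ZF) for plane environments follows from (ALT).** -/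
theorem zfe_of_alt (hA : ALTHyp) : Pool.Agent.H53.ZF.ZFE := by
  intro X W hX c hex t ht y hy ha
  unfold Pool.Agent.H53.ZF.genT
  by_cases hc : c = X.c0
  · have h1 : ∀ ω ∈ X.E.powerset, (∏ a ∈ ω, (t a : ℂ)) * at' X y ω c =
        (∏ a ∈ ω, (t a : ℂ)) * y ^ X.k0 := by
      intro ω hω
      rw [mem_powerset] at hω
      congr 1
      have hz0 : X.z ω 0 = c := by rw [hc, hX.zz ω hω 0]; rfl
      have hK0 : X.K ω 0 = X.k0 := by
        rw [hX.KK' ω hω 0]; unfold KK; rw [range_zero, sum_empty, add_zero]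
      have hp : 0 < X.len ω := (hX.orb hω).pos
      unfold at'
      rw [Finset.sum_eq_single 0]
      · rw [if_pos hz0, hK0]
      · intro j hj hjn
        rw [if_neg]
        intro h2
        exact hjn (Env.z_inj hω (mem_range.1 hj) hp (h2.trans hz0.symm))
      · intro h2
        exact absurd (mem_range.2 hp) h2
    rw [sum_congr rfl h1, ← sum_mul]
    exact mul_ne_zero (prod_ne X.E t ht) (zpow_ne_zero _ hy)
  · have hd : Disjoint W X.E := hX.disj.symm
    have hCA : (W ∪ X.E) \ W = X.E := by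
      rw [union_sdiff_left]; exact sdiff_eq_self_of_disjoint hd.symm
    have hPN : PN X.c0 c W (W ∪ X.E) := by
      refine ⟨subset_union_left, ?_, hc, ?_⟩
      · intro e he
        rcases mem_union.1 he with h1 | h1
        · exact hX.oddW e h1
        · exact X.odd e h1
      · rw [union_comm W]
        exact hX.out
    have key := zf_labels hA hPN ht hy ha (by
      obtain ⟨ω, hω, n, hn, hz⟩ := hex
      refine ⟨ω, by rw [hCA]; exact hω, ?_⟩
      unfold Dat.KE
      rw [Option.ne_none_iff_exists']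
      have hO : Orb (nx (W ∪ ω)) X.c0 (X.len ω) := by rw [union_comm]; exact hX.orb hω
      refine ⟨∑ j ∈ range n, H75.Perc.del (W ∪ ω) ((nx (W ∪ ω))^[j] X.c0), ?_⟩
      rw [idx_eq_some, isIdx_at hO hc]
      exact ⟨n, hn, by rw [← hz, hX.zz ω hω, union_comm], rfl⟩)
    rw [hCA] at key
    have h2 : ∑ ω ∈ X.E.powerset, (∏ a ∈ ω, (t a : ℂ)) * at' X y ω c =
        (∑ ω ∈ X.E.powerset, (∏ a ∈ ω, (t a : ℂ)) * Dat.vl y (Dat.KE W ω X.c0 c)) * y ^ X.k0 := by
      rw [sum_mul]
      refine sum_congr rfl fun ω hω => ?_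
      rw [at_eq' hX (mem_powerset.1 hω) hc hy, mul_assoc]
    rw [h2]
    exact mul_ne_zero key (zpow_ne_zero _ hy)

/-- the same from the counting form of (ALT) -/
theorem zfe_of_count (hC : ALTCount) : Pool.Agent.H53.ZF.ZFE := zfe_of_alt (alt_of_count hC)

end Pool.Agent.ZM
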