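import Mathlib
import Pool.Agent.ZM.Def

set_option autoImplicit false
open Finset

/-! # The locked case: preparations

Paths given by segments (`Go`), flips of one label, labels visited once before and once after `c` (`Vis`);
`vis_of_dead`, `Vis.turn`. -/

namespace Pool.Agent.ZM

open Pool.Agent.H75.Perc Pool.Agent.H75.TwoArm Pool.Agent.H69.Q1 Pool.Agent.Q1 Pool.Agent.ZF
open Pool.Agent.H75.TwoArm.StrandAux hiding vx_nxC
open Pool.Agent.H75.Four Pool.Agent.H75.Four.FOtherAux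

namespace LockAux

/-! ### Paths given by segments -/

section seg

variable {α : Type*} {F : ℕ → α} {g : α → α} {γ : α → ℤ} {V : ℕ → Prop}

/-- the path of `g` from `y` to `y'` has `n` steps and cost `s`; the visited points (without the last)
are of the form `F i` with `V i` -/
def Go (F : ℕ → α) (g : α → α) (γ : α → ℤ) (V : ℕ → Prop) (y : α) (n : ℕ) (y' : α) (s : ℤ) : Prop :=
  g^[n] y = y' ∧ ∑ j ∈ range n, γ (g^[j] y) = s ∧ ∀ j < n, ∃ i, V i ∧ g^[j] y = F i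

lemma Go.comp {y y' y'' : α} {n n' : ℕ} {s s' : ℤ} (h : Go F g γ V y n y' s)
    (h' : Go F g γ V y' n' y'' s') : Go F g γ V y (n + n') y'' (s + s') := by
  obtain ⟨h1, h2, h3⟩ := h
  obtain ⟨k1, k2, k3⟩ := h'
  have e : ∀ j, g^[n + j] y = g^[j] y' := by
    intro j
    rw [add_comm, Function.iterate_add_apply, h1]
  refine ⟨by rw [e, k1], ?_, ?_⟩
  · rw [sum_range_add, h2]
    simp only [e]
    rw [k2]
  · intro j hj
    by_cases hjn : j < n
    · exact h3 j hjn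
    · obtain ⟨i, hi, e1⟩ := k3 (j - n) (by omega)
      refine ⟨i, hi, ?_⟩
      rw [← e1, ← e, show n + (j - n) = j by omega]

lemma Go.one {a : ℕ} {y : α} {e : ℤ} (hV : V a) (h1 : g (F a) = y) (h2 : γ (F a) = e) :
    Go F g γ V (F a) 1 y e := by
  refine ⟨h1, by simpa using h2, fun j hj => ⟨a, hV, ?_⟩⟩
  obtain rfl : j = 0 := by omega
  rfl

lemma Go.seg {K : ℕ → ℤ} {i j : ℕ} (hij : i ≤ j)
    (h : ∀ t, i ≤ t → t < j → V t ∧ g (F t) = F (t + 1) ∧ γ (F t) = K (t + 1) - K t) :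
    Go F g γ V (F i) (j - i) (F j) (K j - K i) := by
  induction j, hij using Nat.le_induction with
  | base => rw [Nat.sub_self, sub_self]; exact ⟨rfl, by simp, fun j hj => absurd hj (by omega)⟩
  | succ j hij ih =>
    obtain ⟨h1, h2, h3⟩ := h j hij (by omega)
    have := (ih fun t h4 h5 => h t h4 (by omega)).comp (Go.one h1 h2 h3)
    rw [show j - i + 1 = j + 1 - i by omega, show K j - K i + (K (j + 1) - K j) = K (j + 1) - K i by ring]
      at this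
    exact this

end seg

/-! ### Flips -/

lemma nx_flip {w P : Finset (ℤ × ℤ)} {y : ℤ × ℤ} (h : lab y ∈ w ↔ lab y ∉ P) :
    nx w y = nx P (opc y) := by
  unfold nx
  rw [lab_opc]
  by_cases h1 : lab y ∈ P
  · rw [if_neg (fun h2 => h.1 h2 h1), if_pos h1, nxC_eq_nxO]
  · rw [if_pos (h.2 h1), if_neg h1, nxC_eq_nxO, opc_opc]

lemma del_flip {w P : Finset (ℤ × ℤ)} {y : ℤ × ℤ} (h : lab y ∈ w ↔ lab y ∉ P) :
    H75.Perc.del w y = - H75.Perc.del P y := by
  unfold H75.Perc.del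
  by_cases h1 : lab y ∈ P
  · rw [if_neg (fun h2 => h.1 h2 h1), if_pos h1]; norm_num
  · rw [if_pos (h.2 h1), if_neg h1]

lemma del_same {w P : Finset (ℤ × ℤ)} {y : ℤ × ℤ} (h : lab y ∈ w ↔ lab y ∈ P) :
    H75.Perc.del w y = H75.Perc.del P y := by
  unfold H75.Perc.del
  by_cases h1 : lab y ∈ P
  · rw [if_pos (h.2 h1), if_pos h1]
  · rw [if_neg (fun h2 => h1 (h.1 h2)), if_neg h1]

/-- an alive state: the loop of `c0` and the position of `c` -/
lemma alive {c0 c : ℤ × ℤ} (hne : c ≠ c0) {w : Finset (ℤ × ℤ)} {k : ℤ} (h : Kw c0 c w = some k) :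
    ∃ L m, Orb (nx w) c0 L ∧ 0 < m ∧ m < L ∧ (nx w)^[m] c0 = c ∧
      KK (nx w) (H75.Perc.del w) c0 0 m = k := by
  unfold Kw at h
  rw [idx_eq_some] at h
  obtain ⟨m, ⟨h1, h2, h3⟩, h4⟩ := h
  obtain ⟨L, hL⟩ := exists_orb_nx w c0
  refine ⟨L, m, hL, h1, ?_, h2, by rw [KK, h4, zero_add]⟩
  by_contra hlt
  rcases (by omega : L < m ∨ L = m) with h5 | h5
  · exact (h3 L hL.pos h5).1 hL.per
  · rw [← h5, hL.per] at h2; exact hne h2.symm

lemma alive_of {c0 c : ℤ × ℤ} (hne : c ≠ c0) {w : Finset (ℤ × ℤ)} (h : InOrb (nx w) c0 c) :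
    ∃ k, Kw c0 c w = some k := by
  obtain ⟨L, hL⟩ := exists_orb_nx w c0
  obtain ⟨m, hm, hmc⟩ := (hL.inOrb_iff c).1 h
  have hm0 : 0 < m := by
    rcases Nat.eq_zero_or_pos m with h0 | h0
    · subst h0; exact absurd hmc.symm hne
    · exact h0
  refine ⟨∑ j ∈ range m, H75.Perc.del w ((nx w)^[j] c0), ?_⟩
  unfold Kw
  rw [idx_eq_some]
  refine ⟨m, ⟨hm0, hmc, fun j hj hjm => ⟨fun h2 => hL.inj 0 j hj (by omega) h2.symm, fun h2 => ?_⟩⟩, rfl⟩
  rw [← hmc] at h2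
  exact hL.inj j m hjm hm h2

/-- the data of an alive state -/
structure Al (c0 c : ℤ × ℤ) (P : Finset (ℤ × ℤ)) (L m : ℕ) : Prop where
  hO : Orb (nx P) c0 L
  hm : 0 < m
  hmL : m < L
  hc : (nx P)^[m] c0 = c

/-- the label `v` is visited once before `c` and once after `c` -/
structure Vis (c0 : ℤ × ℤ) (P : Finset (ℤ × ℤ)) (L m : ℕ) (v : ℤ × ℤ) (a b : ℕ) : Prop where
  am : a < m
  mb : m ≤ b
  bL : b < L
  la : lab ((nx P)^[a] c0) = v
  lb : lab ((nx P)^[b] c0) = v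

variable {c0 c : ℤ × ℤ} {P w : Finset (ℤ × ℤ)} {L m : ℕ} {v : ℤ × ℤ} {a b : ℕ}

lemma Vis.opc (h : Al c0 c P L m) (hv : Vis c0 P L m v a b) :
    (nx P)^[b] c0 = opc ((nx P)^[a] c0) := by
  have h1 : lab ((nx P)^[b] c0) = lab ((nx P)^[a] c0) := by rw [hv.la, hv.lb]
  rcases lab_eq_iff.1 h1 with h2 | h2
  · exact absurd h2.symm (h.hO.inj a b (lt_of_lt_of_le hv.am hv.mb) hv.bL)
  · exact h2

lemma Vis.only (h : Al c0 c P L m) (hv : Vis c0 P L m v a b) {t : ℕ} (ht : t < L)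
    (hl : lab ((nx P)^[t] c0) = v) : t = a ∨ t = b := by
  have h1 : lab ((nx P)^[t] c0) = lab ((nx P)^[a] c0) := by rw [hv.la, hl]
  have key : ∀ s, s < L → (nx P)^[t] c0 = (nx P)^[s] c0 → t = s := by
    intro s hs e
    rcases lt_trichotomy t s with h2 | h2 | h2
    · exact absurd e (h.hO.inj t s h2 hs)
    · exact h2
    · exact absurd e.symm (h.hO.inj s t h2 ht)
  have := hv.am
  have := hv.mb
  have := hv.bL
  rcases lab_eq_iff.1 h1 with h2 | h2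
  · exact Or.inl (key a (by omega) h2)
  · exact Or.inr (key b hv.bL (by rw [h2, hv.opc h]))

/-- a flip at a visited label: the exchange at the first visit -/
lemma Vis.fa (h : Al c0 c P L m) (hv : Vis c0 P L m v a b) (hf : v ∈ w ↔ v ∉ P) :
    nx w ((nx P)^[a] c0) = (nx P)^[b + 1] c0 ∧
      H75.Perc.del w ((nx P)^[a] c0) = - H75.Perc.del P ((nx P)^[a] c0) := by
  have hf' : lab ((nx P)^[a] c0) ∈ w ↔ lab ((nx P)^[a] c0) ∉ P := by rw [hv.la]; exact hf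
  refine ⟨?_, del_flip hf'⟩
  rw [nx_flip hf', ← hv.opc h, Function.iterate_succ_apply']

lemma Vis.fb (h : Al c0 c P L m) (hv : Vis c0 P L m v a b) (hf : v ∈ w ↔ v ∉ P) :
    nx w ((nx P)^[b] c0) = (nx P)^[a + 1] c0 ∧
      H75.Perc.del w ((nx P)^[b] c0) = - H75.Perc.del P ((nx P)^[a] c0) := by
  have hf' : lab ((nx P)^[b] c0) ∈ w ↔ lab ((nx P)^[b] c0) ∉ P := by rw [hv.lb]; exact hf
  have e : H75.Perc.del P ((nx P)^[b] c0) = H75.Perc.del P ((nx P)^[a] c0) := by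
    unfold H75.Perc.del
    rw [hv.la, hv.lb]
  refine ⟨?_, by rw [del_flip hf', e]⟩
  rw [nx_flip hf', hv.opc h, opc_opc, Function.iterate_succ_apply']

lemma Vis.swapped (h : Al c0 c P L m) (hv : Vis c0 P L m v a b) (hf : v ∈ w ↔ v ∉ P)
    (hs : ∀ e, e ≠ v → (e ∈ w ↔ e ∈ P)) :
    Swapped (nx P) (nx w) ((nx P)^[a] c0) ((nx P)^[b] c0) ∧
      ∀ y, y ≠ (nx P)^[a] c0 → y ≠ (nx P)^[b] c0 → H75.Perc.del w y = H75.Perc.del P y := by
  have off : ∀ y, y ≠ (nx P)^[a] c0 → y ≠ (nx P)^[b] c0 → (lab y ∈ w ↔ lab y ∈ P) := by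
    intro y h1 h2
    apply hs
    intro h3
    rw [← hv.la] at h3
    rcases lab_eq_iff.1 h3 with h4 | h4
    · exact h1 h4
    · exact h2 (by rw [h4, hv.opc h])
  refine ⟨⟨?_, ?_, fun y h1 h2 => nx_congr (off y h1 h2)⟩, fun y h1 h2 => del_same (off y h1 h2)⟩
  · rw [(hv.fa h hf).1, Function.iterate_succ_apply']
  · rw [(hv.fb h hf).1, Function.iterate_succ_apply']

/-- **the total turning of the loop between the two visits** -/
lemma Vis.turn {A C : Finset (ℤ × ℤ)} (hPN : PN c0 c A C) (hP : P ⊆ C) (hvC : v ∈ C)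
    (h : Al c0 c P L m) (hv : Vis c0 P L m v a b) :
    KK (nx P) (H75.Perc.del P) c0 0 b - KK (nx P) (H75.Perc.del P) c0 0 a =
      -2 * H75.Perc.del P ((nx P)^[a] c0) := by
  classical
  obtain ⟨hf, hs, hwC⟩ : (v ∈ symmDiff P {v} ↔ v ∉ P) ∧
      (∀ e, e ≠ v → (e ∈ symmDiff P {v} ↔ e ∈ P)) ∧ symmDiff P {v} ⊆ C := by
    refine ⟨by simp [mem_symmDiff], fun e he => by simp [mem_symmDiff, he], fun e he => ?_⟩
    rw [mem_symmDiff, mem_singleton] at he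
    rcases he with h1 | h1
    · exact hP h1.1
    · rw [h1.1]; exact hvC
  obtain ⟨h1, h2⟩ := hv.swapped h hf hs
  have hab : a < b := lt_of_lt_of_le hv.am hv.mb
  have e1 : H75.Perc.del P ((nx P)^[b] c0) = H75.Perc.del P ((nx P)^[a] c0) := by
    unfold H75.Perc.del
    rw [hv.la, hv.lb]
  obtain ⟨-, h3⟩ := h1.split_KK h2 e1 (hv.fa h hf).2 0 h.hO hab hv.bL rfl rfl
  obtain ⟨-, -, h4⟩ := h1.split h.hO hab hv.bL rfl rfl
  rw [hPN.tot hwC h4, hPN.tot hP h.hO] at h3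
  linarith

/-- **If the flip of `v` is dead, `v` is visited once before and once after `c`.** -/
lemma vis_of_dead (h : Al c0 c P L m) (hodd : (v.1 + v.2) % 2 = 1) (hf : v ∈ w ↔ v ∉ P)
    (hs : ∀ e, e ≠ v → (e ∈ w ↔ e ∈ P)) (hd : ¬ InOrb (nx w) c0 c) :
    ∃ a b, Vis c0 P L m v a b := by
  obtain ⟨ho, ho', hlu, hlv, -, -⟩ := opc_zu hodd
  have hc : InOrb (nx P) c0 c := ⟨m, h.hc⟩
  have main : ∀ p q, opc p = q → opc q = p → lab p = v → lab q = v →
      Swapped (nx P) (nx w) p q := by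
    intro p q h1 h2 h3 h4
    refine ⟨?_, ?_, fun y h5 h6 => nx_congr (hs _ fun h7 => ?_)⟩
    · rw [nx_flip (by rw [h3]; exact hf), h1]
    · rw [nx_flip (by rw [h4]; exact hf), h2]
    · rw [← h3] at h7
      rcases lab_eq_iff.1 h7 with h8 | h8
      · exact h5 h8
      · exact h6 (by rw [h8, h1])
  have key : ∀ p q, Swapped (nx P) (nx w) p q → lab p = v → lab q = v → ∀ a b, a < b → b < L →
      (nx P)^[a] c0 = p → (nx P)^[b] c0 = q → ∃ a b, Vis c0 P L m v a b := by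
    intro p q hsw hlp hlq a b hab hbL ha hb
    obtain ⟨h1, h2, -⟩ := hsw.split h.hO hab hbL ha hb
    have hmL := h.hmL
    rcases (by omega : (a < m ∧ m ≤ b) ∨ m ≤ a ∨ b < m) with h3 | h3 | h3
    · exact ⟨a, b, h3.1, h3.2, hbL, by rw [ha]; exact hlp, by rw [hb]; exact hlq⟩
    · exact absurd ⟨m, by rw [h1 m h3]; exact h.hc⟩ hd
    · refine absurd ⟨a + 1 + (m - b - 1), ?_⟩ hd
      rw [h2 _ (by omega), show b + 1 + (m - b - 1) = m by omega]; exact h.hc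
  have hpq := main _ _ ho ho' hlu hlv
  by_cases hp : InOrb (nx P) c0 (zu v) <;> by_cases hq : InOrb (nx P) c0 (zv v)
  · obtain ⟨a, haL, ha⟩ := (h.hO.inOrb_iff _).1 hp
    obtain ⟨b, hbL, hb⟩ := (h.hO.inOrb_iff _).1 hq
    rcases lt_trichotomy a b with h1 | h1 | h1
    · exact key _ _ hpq hlu hlv a b h1 hbL ha hb
    · rw [h1, hb, ← ho] at ha
      exact absurd ha (opc_ne _)
    · exact key _ _ (main _ _ ho' ho hlv hlu) hlv hlu b a h1 haL hb ha
  · obtain ⟨M, hM⟩ := exists_orb_nx P (zv v)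
    exact absurd ((hpq.merge h.hO hM hp hq).2.2.1 c hc) hd
  · obtain ⟨M, hM⟩ := exists_orb_nx P (zu v)
    exact absurd (((main _ _ ho' ho hlv hlu).merge h.hO hM hq hp).2.2.1 c hc) hd
  · refine absurd ⟨m, ?_⟩ hd
    rw [hpq.agree c0 m (fun i _ => ⟨fun e => hp ⟨i, e⟩, fun e => hq ⟨i, e⟩⟩) m le_rfl]
    exact h.hc

end LockAux

end Pool.Agent.ZM
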