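import Mathlib
import Pool.Agent.ZM.LockA

set_option autoImplicit false
open Finset

/-! # The locked case: exactly two alive states, opposite to each other

`lock_two` : if a state `P` and its opposite are alive and all other states are dead, then there are only the
two random labels `x`, `z`, and the indices differ by `4` in the natural direction. -/

namespace Pool.Agent.ZM

open Pool.Agent.H75.Perc Pool.Agent.H75.TwoArm Pool.Agent.H69.Q1 Pool.Agent.Q1 Pool.Agent.ZF
open Pool.Agent.H75.TwoArm.StrandAux hiding vx_nxC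
open Pool.Agent.H75.Four Pool.Agent.H75.Four.FOtherAux

namespace LockAux

variable {c0 c : ℤ × ℤ} {P w : Finset (ℤ × ℤ)} {L m : ℕ} {v : ℤ × ℤ} {a b : ℕ}

lemma Go.mono {α : Type*} {F : ℕ → α} {g : α → α} {γ : α → ℤ} {V V' : ℕ → Prop} {y y' : α} {n : ℕ}
    {s : ℤ} (hV : ∀ i, V i → V' i) (h : Go F g γ V y n y' s) : Go F g γ V' y n y' s :=
  ⟨h.1, h.2.1, fun j hj => by
    obtain ⟨i, hi, e⟩ := h.2.2 j hj
    exact ⟨i, hV i hi, e⟩⟩

lemma Go.cast {α : Type*} {F : ℕ → α} {g : α → α} {γ : α → ℤ} {V : ℕ → Prop} {y y' : α} {n : ℕ}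
    {s s' : ℤ} (h : Go F g γ V y n y' s) (e : s = s') : Go F g γ V y n y' s' := e ▸ h

lemma Al.ne (h : Al c0 c P L m) {i j : ℕ} (hi : i < L) (hj : j < L) (hij : i ≠ j) :
    (nx P)^[i] c0 ≠ (nx P)^[j] c0 := by
  rcases lt_or_gt_of_ne hij with h1 | h1
  · exact h.hO.inj i j h1 hj
  · exact (h.hO.inj j i h1 hi).symm

lemma Al.reg (_ : Al c0 c P L m) {t : ℕ} (hs : lab ((nx P)^[t] c0) ∈ w ↔ lab ((nx P)^[t] c0) ∈ P) :
    nx w ((nx P)^[t] c0) = (nx P)^[t + 1] c0 ∧ H75.Perc.del w ((nx P)^[t] c0) =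
      KK (nx P) (H75.Perc.del P) c0 0 (t + 1) - KK (nx P) (H75.Perc.del P) c0 0 t := by
  refine ⟨by rw [nx_congr hs, Function.iterate_succ_apply'], ?_⟩
  rw [KK_succ, del_same hs]; ring

/-- **the two paths after the flip of `x` and `u`** -/
lemma dbl {u : ℤ × ℤ} {a' b' : ℕ} (h : Al c0 c P L m) (hx : Vis c0 P L m v a b)
    (hu : Vis c0 P L m u a' b') (haa : a < a') (hbb : b < b') (hfx : v ∈ w ↔ v ∉ P)
    (hfu : u ∈ w ↔ u ∉ P) (hs : ∀ e, e ≠ v → e ≠ u → (e ∈ w ↔ e ∈ P)) :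
    (∃ n, Go (fun i => (nx P)^[i] c0) (nx w) (H75.Perc.del w) (fun i => i < L ∧ i ≠ m) c0 n c
      (KK (nx P) (H75.Perc.del P) c0 0 a - KK (nx P) (H75.Perc.del P) c0 0 b +
        KK (nx P) (H75.Perc.del P) c0 0 b' - KK (nx P) (H75.Perc.del P) c0 0 a' +
        KK (nx P) (H75.Perc.del P) c0 0 m - 2 * H75.Perc.del P ((nx P)^[a] c0) -
        2 * H75.Perc.del P ((nx P)^[a'] c0))) ∧
    (∃ n, Go (fun i => (nx P)^[i] c0) (nx w) (H75.Perc.del w) (fun i => i < L ∧ i ≠ 0) c n c0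
      (KK (nx P) (H75.Perc.del P) c0 0 b - KK (nx P) (H75.Perc.del P) c0 0 m +
        KK (nx P) (H75.Perc.del P) c0 0 a' - KK (nx P) (H75.Perc.del P) c0 0 a +
        KK (nx P) (H75.Perc.del P) c0 0 L - KK (nx P) (H75.Perc.del P) c0 0 b' -
        2 * H75.Perc.del P ((nx P)^[a] c0) - 2 * H75.Perc.del P ((nx P)^[a'] c0))) := by
  obtain ⟨x1, x2, x3, x4, x5⟩ := hx
  obtain ⟨u1, u2, u3, u4, u5⟩ := hu
  have hx : Vis c0 P L m v a b := ⟨x1, x2, x3, x4, x5⟩
  have hu : Vis c0 P L m u a' b' := ⟨u1, u2, u3, u4, u5⟩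
  have hm := h.hm
  have hmL := h.hmL
  -- regular times
  have reg : ∀ t, t < L → t ≠ a → t ≠ b → t ≠ a' → t ≠ b' →
      nx w ((nx P)^[t] c0) = (nx P)^[t + 1] c0 ∧ H75.Perc.del w ((nx P)^[t] c0) =
      KK (nx P) (H75.Perc.del P) c0 0 (t + 1) - KK (nx P) (H75.Perc.del P) c0 0 t := by
    intro t ht h1 h2 h3 h4
    refine h.reg (hs _ ?_ ?_)
    · intro h5
      rcases hx.only h ht h5 with h6 | h6
      · exact h1 h6
      · exact h2 h6
    · intro h5
      rcases hu.only h ht h5 with h6 | h6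
      · exact h3 h6
      · exact h4 h6
  have eb : H75.Perc.del P ((nx P)^[b] c0) = H75.Perc.del P ((nx P)^[a] c0) := by
    unfold H75.Perc.del; rw [x4, x5]
  have eb' : H75.Perc.del P ((nx P)^[b'] c0) = H75.Perc.del P ((nx P)^[a'] c0) := by
    unfold H75.Perc.del; rw [u4, u5]
  set F : ℕ → ℤ × ℤ := fun i => (nx P)^[i] c0 with hF
  set K : ℕ → ℤ := fun i => KK (nx P) (H75.Perc.del P) c0 0 i with hK
  have Ks : ∀ t, K (t + 1) = K t + H75.Perc.del P (F t) := fun t => KK_succ _ _ _ _ _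
  have sg : ∀ (V : ℕ → Prop) (i j : ℕ), i ≤ j → j ≤ L →
      (∀ t, i ≤ t → t < j → V t ∧ t ≠ a ∧ t ≠ b ∧ t ≠ a' ∧ t ≠ b') →
      Go F (nx w) (H75.Perc.del w) V (F i) (j - i) (F j) (K j - K i) := by
    intro V i j hij hjL ht
    refine Go.seg hij fun t h1 h2 => ?_
    obtain ⟨g1, g2, g3, g4, g5⟩ := ht t h1 h2
    exact ⟨g1, reg t (by omega) g2 g3 g4 g5⟩
  have hcm : F m = c := h.hc
  have hLL : F L = c0 := h.hO.per
  constructor
  · have G1 := sg (fun i => i < L ∧ i ≠ m) 0 a (by omega) (by omega)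
      (fun t h1 h2 => ⟨⟨by omega, by omega⟩, by omega, by omega, by omega, by omega⟩)
    have G2 : Go F (nx w) (H75.Perc.del w) (fun i => i < L ∧ i ≠ m) (F a) 1 (F (b + 1))
        (- H75.Perc.del P (F a)) :=
      Go.one ⟨by omega, by omega⟩ (hx.fa h hfx).1 (hx.fa h hfx).2
    have G3 := sg (fun i => i < L ∧ i ≠ m) (b + 1) b' (by omega) (by omega)
      (fun t h1 h2 => ⟨⟨by omega, by omega⟩, by omega, by omega, by omega, by omega⟩)
    have G4 : Go F (nx w) (H75.Perc.del w) (fun i => i < L ∧ i ≠ m) (F b') 1 (F (a' + 1))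
        (- H75.Perc.del P (F a')) :=
      Go.one ⟨by omega, by omega⟩ (hu.fb h hfu).1 (hu.fb h hfu).2
    have G5 := sg (fun i => i < L ∧ i ≠ m) (a' + 1) m (by omega) (by omega)
      (fun t h1 h2 => ⟨⟨by omega, by omega⟩, by omega, by omega, by omega, by omega⟩)
    have G := (((G1.comp G2).comp G3).comp G4).comp G5
    rw [hcm] at G
    have eb1 : H75.Perc.del P (F b) = H75.Perc.del P (F a) := eb
    have k0 : K 0 = 0 := KK_zero _ _ _ _
    have k1 := Ks b
    have k2 := Ks a'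
    rw [eb1] at k1
    refine ⟨_, G.cast ?_⟩
    change _ = K a - K b + K b' - K a' + K m - 2 * H75.Perc.del P (F a) -
      2 * H75.Perc.del P (F a')
    linarith
  · have G1 := sg (fun i => i < L ∧ i ≠ 0) m b (by omega) (by omega)
      (fun t h1 h2 => ⟨⟨by omega, by omega⟩, by omega, by omega, by omega, by omega⟩)
    have G2 : Go F (nx w) (H75.Perc.del w) (fun i => i < L ∧ i ≠ 0) (F b) 1 (F (a + 1))
        (- H75.Perc.del P (F a)) :=
      Go.one ⟨by omega, by omega⟩ (hx.fb h hfx).1 (hx.fb h hfx).2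
    have G3 := sg (fun i => i < L ∧ i ≠ 0) (a + 1) a' (by omega) (by omega)
      (fun t h1 h2 => ⟨⟨by omega, by omega⟩, by omega, by omega, by omega, by omega⟩)
    have G4 : Go F (nx w) (H75.Perc.del w) (fun i => i < L ∧ i ≠ 0) (F a') 1 (F (b' + 1))
        (- H75.Perc.del P (F a')) :=
      Go.one ⟨by omega, by omega⟩ (hu.fa h hfu).1 (hu.fa h hfu).2
    have G5 := sg (fun i => i < L ∧ i ≠ 0) (b' + 1) L (by omega) (by omega)
      (fun t h1 h2 => ⟨⟨by omega, by omega⟩, by omega, by omega, by omega, by omega⟩)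
    have G := (((G1.comp G2).comp G3).comp G4).comp G5
    rw [hcm, hLL] at G
    have eb1 : H75.Perc.del P (F b') = H75.Perc.del P (F a') := eb'
    have k1 := Ks a
    have k2 := Ks b'
    rw [eb1] at k2
    refine ⟨_, G.cast ?_⟩
    change _ = K b - K m + K a' - K a + K L - K b' - 2 * H75.Perc.del P (F a) -
      2 * H75.Perc.del P (F a')
    linarith

/-- a first return is the period -/
lemma orb_of_ret {g : ℤ × ℤ → ℤ × ℤ} (hg : Function.Injective g) {N : ℕ} (hN : 0 < N)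
    (h : g^[N] c0 = c0) (h' : ∀ j, 0 < j → j < N → g^[j] c0 ≠ c0) : Orb g c0 N := by
  refine ⟨hN, h, fun i j hij hj e => ?_⟩
  rw [show j = i + (j - i) by omega, Function.iterate_add_apply] at e
  exact h' (j - i) (by omega) (by omega) (hg.iterate i e).symm

end LockAux

open LockAux in
/-- **The locked case.** -/
theorem lock_two {c0 c : ℤ × ℤ} {A C P : Finset (ℤ × ℤ)} {x z : ℤ × ℤ} {k l : ℤ}
    (h : PN c0 c A C) (hx : FirstO c0 c A C x) (hz : FirstI c0 c A C z) (hxz : x ≠ z)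
    (hP : P ∈ Icc A C) (hk : Kw c0 c P = some k) (hl : Kw c0 c (cpl A C P) = some l)
    (hall : ∀ w ∈ Icc A C, ∀ j, Kw c0 c w = some j → w = P ∨ w = cpl A C P) :
    (x ∈ P ∧ z ∉ P ∧ k - l = 4) ∨ (x ∉ P ∧ z ∈ P ∧ l - k = 4) := by
  classical
  obtain ⟨hAP, hPC⟩ := mem_Icc.1 hP
  have hxC := (mem_sdiff.1 hx.1).1
  have hzC := (mem_sdiff.1 hz.1).1
  obtain ⟨L, m, hO, hm, hmL, hc, hK⟩ := alive h.hne hk
  have al : Al c0 c P L m := ⟨hO, hm, hmL, hc⟩
  -- the opposite state
  have hcp : ∀ e ∈ C \ A, (e ∈ cpl A C P ↔ e ∉ P) := by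
    intro e he
    rw [mem_sdiff] at he
    unfold cpl
    rw [mem_union, mem_sdiff]
    tauto
  have hcs : ∀ e, e ∉ C \ A → (e ∈ cpl A C P ↔ e ∈ P) := by
    intro e he
    rw [mem_sdiff] at he
    unfold cpl
    rw [mem_union, mem_sdiff]
    have h1 : e ∈ A → e ∈ P := fun h2 => hAP h2
    have h2 : e ∈ P → e ∈ C := fun h2 => hPC h2
    tauto
  have hcC : cpl A C P ⊆ C := union_subset h.hAC sdiff_subset
  -- flips
  have sdm : ∀ U : Finset (ℤ × ℤ), U ⊆ C \ A → symmDiff P U ∈ Icc A C ∧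
      (∀ e ∈ U, (e ∈ symmDiff P U ↔ e ∉ P)) ∧ ∀ e, e ∉ U → (e ∈ symmDiff P U ↔ e ∈ P) := by
    intro U hU
    refine ⟨mem_Icc.2 ⟨fun e he => ?_, fun e he => ?_⟩, fun e he => ?_, fun e he => ?_⟩
    · rw [mem_symmDiff]
      exact Or.inl ⟨hAP he, fun h1 => (mem_sdiff.1 (hU h1)).2 he⟩
    · rw [mem_symmDiff] at he
      rcases he with h1 | h1
      · exact hPC h1.1
      · exact (mem_sdiff.1 (hU h1.1)).1
    · rw [mem_symmDiff]; tauto
    · rw [mem_symmDiff]; tauto
  have two : ∀ U : Finset (ℤ × ℤ), U ⊆ C \ A → U.Nonempty → InOrb (nx (symmDiff P U)) c0 c →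
      symmDiff P U = cpl A C P ∧ C \ A ⊆ U := by
    intro U hU hne hin
    obtain ⟨h1, h2, h3⟩ := sdm U hU
    obtain ⟨j, hj⟩ := alive_of h.hne hin
    have h4 : symmDiff P U = cpl A C P := by
      rcases hall _ h1 j hj with h4 | h4
      · exfalso
        obtain ⟨e, he⟩ := hne
        have := h2 e he
        rw [h4] at this
        tauto
      · exact h4
    refine ⟨h4, fun e he => ?_⟩
    by_contra heU
    have h5 := h3 e heU
    rw [h4, hcp e he] at h5
    tauto
  have vis : ∀ v ∈ C \ A, ∃ a b, Vis c0 P L m v a b := by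
    intro v hv
    obtain ⟨h1, h2, h3⟩ := sdm {v} (singleton_subset_iff.2 hv)
    refine vis_of_dead al (h.odd v (mem_sdiff.1 hv).1) (h2 v (mem_singleton_self v))
      (fun e he => h3 e (by rw [mem_singleton]; exact he)) fun hin => ?_
    obtain ⟨-, h4⟩ := two {v} (singleton_subset_iff.2 hv) ⟨v, mem_singleton_self v⟩ hin
    have h5 := mem_singleton.1 (h4 hx.1)
    have h6 := mem_singleton.1 (h4 hz.1)
    exact hxz (h5.trans h6.symm)
  obtain ⟨a, b, hvx⟩ := vis x hx.1
  -- `x` is the first random label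
  have hfirst : ∀ i < a, lab ((nx P)^[i] c0) ∉ C \ A := by
    obtain ⟨-, n, hn, hn'⟩ := hx
    have e : ∀ i ≤ n, (nx P)^[i] c0 = (nx A)^[i] c0 := by
      intro i
      induction i with
      | zero => intro _; rfl
      | succ i ih =>
        intro hi
        rw [Function.iterate_succ_apply', Function.iterate_succ_apply', ih (by omega)]
        have h1 := (hn' i (by omega)).1
        refine nx_congr ⟨fun h2 => ?_, fun h2 => hAP h2⟩
        by_contra h3
        exact h1 (mem_sdiff.2 ⟨hPC h2, h3⟩)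
    have hnm : n < m := by
      by_contra hnm
      have h1 := (hn' (m - 1) (by omega)).2.2
      rw [show m - 1 + 1 = m by omega, ← e m (by omega)] at h1
      exact h1 hc
    have hna : n = a := by
      rcases hvx.only al (by omega : n < L) (by rw [e n le_rfl]; exact hn) with h1 | h1
      · exact h1
      · have := hvx.mb; omega
    intro i hi
    rw [e i (by omega)]
    exact (hn' i (by omega)).1
  obtain ⟨x1, x2, x3, x4, x5⟩ := id hvx
  obtain ⟨n0, ⟨hn0, hn0c, hn0'⟩, hsum⟩ : IsIdx (nx (cpl A C P)) (H75.Perc.del (cpl A C P)) c0 c l :=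
    idx_eq_some.1 hl
  by_cases H : ∃ u ∈ C \ A, u ≠ x ∧ ∃ t, b < t ∧ t < L ∧ lab ((nx P)^[t] c0) = u
  · obtain ⟨u, hu, hux, t, hbt, htL, htu⟩ := H
    obtain ⟨a', b', hvu⟩ := vis u hu
    obtain ⟨u1, u2, u3, u4, u5⟩ := id hvu
    have hbb : b < b' := by
      rcases hvu.only al htL htu with h1 | h1 <;> omega
    have haa : a < a' := by
      rcases lt_trichotomy a a' with h1 | h1 | h1
      · exact h1
      · rw [← h1, x4] at u4; exact absurd u4.symm hux
      · exact absurd (by rw [u4]; exact hu) (hfirst a' h1)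
    have hU : ({x, u} : Finset (ℤ × ℤ)) ⊆ C \ A := by
      intro e he
      rw [mem_insert, mem_singleton] at he
      rcases he with rfl | rfl
      · exact hx.1
      · exact hu
    obtain ⟨-, s2, s3⟩ := sdm {x, u} hU
    obtain ⟨n1, hG1⟩ := (dbl al hvx hvu haa hbb (s2 x (by simp)) (s2 u (by simp))
      (fun e h1 h2 => s3 e (by simp [h1, h2]))).1
    obtain ⟨t1, t2⟩ := two {x, u} hU ⟨x, by simp⟩ ⟨n1, hG1.1⟩
    have hzu : u = z := by
      have h1 := t2 hz.1
      rw [mem_insert, mem_singleton] at h1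
      rcases h1 with h1 | h1
      · exact absurd h1.symm hxz
      · exact h1.symm
    subst hzu
    obtain ⟨⟨n, hG⟩, ⟨n', hG'⟩⟩ := dbl al hvx hvu haa hbb (hcp x hx.1) (hcp u hu)
      (fun e h1 h2 => hcs e (fun h3 => by
        have h4 := t2 h3
        rw [mem_insert, mem_singleton] at h4
        tauto))
    have hT1 := hvx.turn h hPC hxC al
    have hT2 := hvu.turn h hPC hzC al
    have hTP := h.tot hPC hO
    -- the hitting time of `c`
    have hnn : n = n0 := by
      rcases lt_trichotomy n n0 with h1 | h1 | h1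
      · have hn : 0 < n := by
          rcases Nat.eq_zero_or_pos n with h2 | h2
          · subst h2
            exact absurd hG.1.symm h.hne
          · exact h2
        exact absurd hG.1 (hn0' n hn h1).2
      · exact h1
      · obtain ⟨i, ⟨hi, him⟩, e⟩ := hG.2.2 n0 h1
        rw [hn0c, ← hc] at e
        exact absurd e (al.ne hmL hi (Ne.symm him))
    subst hnn
    have hl1 := hsum.symm.trans hG.2.1
    -- the total
    have hGG := (hG.mono (V' := fun _ => True) fun _ _ => trivial).comp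
      (hG'.mono (V' := fun _ => True) fun _ _ => trivial)
    have hOr : Orb (nx (cpl A C P)) c0 (n + n') := by
      refine orb_of_ret (nx_injective _) (by omega) hGG.1 fun j hj hj' => ?_
      by_cases hjn : j < n
      · exact (hn0' j hj hjn).1
      · obtain ⟨i, ⟨hi, hi0⟩, e⟩ := hG'.2.2 (j - n) (by omega)
        have e2 : (nx (cpl A C P))^[j] c0 = (nx (cpl A C P))^[j - n] c := by
          conv_lhs => rw [show j = (j - n) + n by omega]
          rw [Function.iterate_add_apply, hG.1]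
        rw [e2, e]
        exact al.ne hi (by omega : 0 < L) hi0
    have hT3 := h.tot hcC hOr
    rw [KK, hGG.2.1] at hT3
    rw [hK] at hl1 hT3
    have hd1 : H75.Perc.del P ((nx P)^[a] c0) = if x ∈ P then -1 else 1 := by
      unfold H75.Perc.del; rw [x4]
    have hd2 : H75.Perc.del P ((nx P)^[a'] c0) = if u ∈ P then -1 else 1 := by
      unfold H75.Perc.del; rw [u4]
    rw [hd1] at hT1 hT3 hl1
    rw [hd2] at hT2 hT3 hl1
    by_cases h1 : x ∈ P <;> by_cases h2 : u ∈ P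
    · rw [if_pos h1] at hT1 hT3 hl1
      rw [if_pos h2] at hT2 hT3 hl1
      omega
    · rw [if_pos h1] at hT1 hT3 hl1
      rw [if_neg h2] at hT2 hT3 hl1
      exact Or.inl ⟨h1, h2, by omega⟩
    · rw [if_neg h1] at hT1 hT3 hl1
      rw [if_pos h2] at hT2 hT3 hl1
      exact Or.inr ⟨h1, h2, by omega⟩
    · rw [if_neg h1] at hT1 hT3 hl1
      rw [if_neg h2] at hT2 hT3 hl1
      omega
  · -- the opposite state is dead
    exfalso
    push Not at H
    have reg : ∀ t, t < L → (t < a ∨ b < t) →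
        (lab ((nx P)^[t] c0) ∈ cpl A C P ↔ lab ((nx P)^[t] c0) ∈ P) := by
      intro t ht h1
      refine hcs _ fun h2 => ?_
      rcases h1 with h1 | h1
      · exact hfirst t h1 h2
      · by_cases h3 : lab ((nx P)^[t] c0) = x
        · rcases hvx.only al ht h3 with h4 | h4 <;> omega
        · exact H _ h2 h3 t h1 ht rfl
    have G1 : Go (fun i => (nx P)^[i] c0) (nx (cpl A C P)) (H75.Perc.del (cpl A C P))
        (fun i => i < L ∧ i ≠ m) ((nx P)^[0] c0) (a - 0) ((nx P)^[a] c0)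
        (KK (nx P) (H75.Perc.del P) c0 0 a - KK (nx P) (H75.Perc.del P) c0 0 0) :=
      Go.seg (F := fun i => (nx P)^[i] c0) (K := fun i => KK (nx P) (H75.Perc.del P) c0 0 i)
        (by omega) fun t h1 h2 => ⟨⟨by omega, by omega⟩, al.reg (reg t (by omega) (Or.inl h2))⟩
    have G2 : Go (fun i => (nx P)^[i] c0) (nx (cpl A C P)) (H75.Perc.del (cpl A C P))
        (fun i => i < L ∧ i ≠ m) ((nx P)^[a] c0) 1 ((nx P)^[b + 1] c0)
        (- H75.Perc.del P ((nx P)^[a] c0)) :=
      Go.one (F := fun i => (nx P)^[i] c0) ⟨by omega, by omega⟩ (hvx.fa al (hcp x hx.1)).1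
        (hvx.fa al (hcp x hx.1)).2
    have G3 : Go (fun i => (nx P)^[i] c0) (nx (cpl A C P)) (H75.Perc.del (cpl A C P))
        (fun i => i < L ∧ i ≠ m) ((nx P)^[b + 1] c0) (L - (b + 1)) ((nx P)^[L] c0)
        (KK (nx P) (H75.Perc.del P) c0 0 L - KK (nx P) (H75.Perc.del P) c0 0 (b + 1)) :=
      Go.seg (F := fun i => (nx P)^[i] c0) (K := fun i => KK (nx P) (H75.Perc.del P) c0 0 i)
        (by omega) fun t h1 h2 => ⟨⟨by omega, by omega⟩, al.reg (reg t (by omega) (Or.inr (by omega)))⟩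
    obtain ⟨g1, -, g3⟩ := (G1.comp G2).comp G3
    rw [hO.per] at g1
    change (nx (cpl A C P))^[a - 0 + 1 + (L - (b + 1))] c0 = c0 at g1
    rcases lt_trichotomy n0 (a - 0 + 1 + (L - (b + 1))) with h1 | h1 | h1
    · obtain ⟨i, ⟨hi, him⟩, e⟩ := g3 n0 h1
      change (nx (cpl A C P))^[n0] c0 = (nx P)^[i] c0 at e
      rw [hn0c, ← hc] at e
      exact al.ne hmL hi (Ne.symm him) e
    · rw [← h1, hn0c] at g1
      exact h.hne g1
    · exact (hn0' _ (by omega) h1).1 g1

end Pool.Agent.ZM
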