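import Pool.Agent.ZM.Lock
import Pool.Agent.ZM.Leg

set_option autoImplicit false
open Finset Polynomial

/-! # The locked case in terms of the partition functions (MP_fe58d8_pr, note 1653 (3)) -/

namespace Pool.Agent.ZM

open Pool.Agent.H75.Perc Pool.Agent.H75.TwoArm Pool.Agent.H69.Q1 Pool.Agent.Q1 Pool.Agent.ZF
open Pool.Agent.H75.TwoArm.StrandAux hiding vx_nxC

variable {c0 c x z v : ℤ × ℤ} {t : ℤ × ℤ → ℝ} {M : ℤ} {A C A' C' : Finset (ℤ × ℤ)}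

namespace LockZAux

/-! ### Polynomials -/

lemma mon_nonneg (M : ℤ) (o : Option ℤ) (n : ℕ) : 0 ≤ (mon M o).coeff n := by
  cases o with
  | none => simp [mon]
  | some k => simp only [mon, coeff_X_pow]; split_ifs <;> norm_num

lemma Z_coeff (n : ℕ) : (Z c0 c t M A C).coeff n =
    ∑ w ∈ Icc A C, (∏ e ∈ w, t e) * (mon M (Kw c0 c w)).coeff n := by
  rw [Z, finsetSum_coeff]
  exact sum_congr rfl fun w _ => coeff_C_mul _

lemma Z_nonneg (ht : ∀ e, 0 < t e) (n : ℕ) : 0 ≤ (Z c0 c t M A C).coeff n := by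
  rw [Z_coeff]
  exact sum_nonneg fun w _ => mul_nonneg (prod_nonneg fun e _ => (ht e).le) (mon_nonneg _ _ _)

lemma Z_pos (ht : ∀ e, 0 < t e) {w : Finset (ℤ × ℤ)} (hw : w ∈ Icc A C) {k : ℤ}
    (hk : Kw c0 c w = some k) : 0 < (Z c0 c t M A C).coeff ((k + M) / 4).toNat := by
  rw [Z_coeff]
  refine lt_of_lt_of_le ?_ (single_le_sum (f := fun w => (∏ e ∈ w, t e) *
    (mon M (Kw c0 c w)).coeff ((k + M) / 4).toNat) (fun w _ => mul_nonneg
      (prod_nonneg fun e _ => (ht e).le) (mon_nonneg _ _ _)) hw)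
  simpa [hk, mon] using prod_pos fun e _ => ht e

lemma Z_alive {n : ℕ} (h : (Z c0 c t M A C).coeff n ≠ 0) :
    ∃ w ∈ Icc A C, ∃ k, Kw c0 c w = some k ∧ ((k + M) / 4).toNat = n := by
  rw [Z_coeff] at h
  obtain ⟨w, hw, hne⟩ := exists_ne_zero_of_sum_ne_zero h
  refine ⟨w, hw, ?_⟩
  cases hk : Kw c0 c w with
  | none => rw [hk] at hne; simp [mon] at hne
  | some k =>
    refine ⟨k, rfl, ?_⟩
    by_contra hk'
    rw [hk] at hne
    exact hne (by simp [mon, coeff_X_pow, Ne.symm hk'])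

/-- two polynomials with nonnegative coefficients: no exponent sum of the parity `e` -/
lemma par {P Q : ℝ[X]} (hP : ∀ n, 0 ≤ P.coeff n) (hQ : ∀ n, 0 ≤ Q.coeff n) {e : ℕ}
    (h : ∀ k, k % 2 = e → (P * Q).coeff k ≤ 0) {a b : ℕ} (ha : P.coeff a ≠ 0)
    (hb : Q.coeff b ≠ 0) : (a + b) % 2 ≠ e := by
  intro he
  have h1 := h _ he
  rw [coeff_mul] at h1
  have h2 := single_le_sum (f := fun p : ℕ × ℕ => P.coeff p.1 * Q.coeff p.2)
    (fun p _ => mul_nonneg (hP _) (hQ _)) (mem_antidiagonal.2 (rfl : (a, b).1 + (a, b).2 = a + b))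
  have h3 : 0 < P.coeff a * Q.coeff b :=
    mul_pos (lt_of_le_of_ne (hP a) (Ne.symm ha)) (lt_of_le_of_ne (hQ b) (Ne.symm hb))
  simp only at h2
  linarith

lemma mono_of_par {P : ℝ[X]} (hP : R0 P) (h0 : P ≠ 0)
    (h : ∀ a b, P.coeff a ≠ 0 → P.coeff b ≠ 0 → a % 2 = b % 2) :
    ∃ (n : ℕ) (α : ℝ), 0 < α ∧ P = Polynomial.C α * X ^ n := by
  obtain ⟨hc, hs⟩ := hP
  have hpos : ∀ s : ℝ, 0 < s → 0 < P.eval s := fun s hs' => by
    rw [eval_eq_sum_range]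
    refine lt_of_lt_of_le (mul_pos (lt_of_le_of_ne (hc P.natDegree)
      (Ne.symm (by simpa using h0))) (pow_pos hs' _)) (single_le_sum (f := fun i =>
        P.coeff i * s ^ i) (fun i _ => mul_nonneg (hc i) (pow_pos hs' _).le)
      (self_mem_range_succ _))
  have hneg : ∀ s : ℝ, P.eval (-s) = (-1) ^ P.natDegree * P.eval s := fun s => by
    rw [eval_eq_sum_range, eval_eq_sum_range, mul_sum]
    refine sum_congr rfl fun i _ => ?_
    by_cases hi : P.coeff i = 0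
    · simp [hi]
    · have hpar := h i P.natDegree hi (by simpa using h0)
      have h1 : (-1 : ℝ) ^ i = (-1) ^ P.natDegree := by
        rw [neg_one_pow_eq_pow_mod_two, hpar, ← neg_one_pow_eq_pow_mod_two]
      rw [neg_pow, h1]; ring
  have hroot : ∀ s ∈ P.roots, s = 0 := fun s hs' => by
    have h1 : P.eval s = 0 := (mem_roots'.1 hs').2
    by_contra hne
    rcases lt_or_gt_of_ne hne with h2 | h2
    · have h3 := hpos (-s) (by linarith)
      rw [hneg, h1] at h3; simp at h3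
    · have h3 := hpos s h2
      rw [h1] at h3; exact lt_irrefl _ h3
  refine ⟨P.roots.card, P.leadingCoeff, lt_of_le_of_ne (hc _) (Ne.symm (by simpa using h0)), ?_⟩
  have h1 := hs.eq_prod_roots
  rw [Multiset.eq_replicate.2 ⟨rfl, hroot⟩] at h1
  simpa using h1

lemma nr_mono {α : ℝ} (hα : 0 < α) (n : ℕ) {r : ℝ} (hr : 0 < r) :
    nr (Polynomial.C α * X ^ n) r = n := by
  unfold nr
  rw [roots_C_mul _ hα.ne', roots_X_pow, Multiset.nsmul_singleton]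
  rw [Multiset.filter_eq_self.2 fun s hs => by rw [Multiset.eq_of_mem_replicate hs]; linarith]
  simp

lemma R0_mono {α : ℝ} (hα : 0 < α) (n : ℕ) : R0 (Polynomial.C α * X ^ n) :=
  ⟨fun m => by rw [coeff_C_mul, coeff_X_pow]; split_ifs <;> simp [hα.le],
    (Splits.C α).mul (Splits.X_pow n)⟩

lemma IL_mono {α β : ℝ} (hα : 0 < α) (hβ : 0 < β) {m n : ℕ} :
    IL (Polynomial.C α * X ^ m) (Polynomial.C β * X ^ n) ↔ n ≤ m ∧ m ≤ n + 1 := by
  refine ⟨fun h => ?_, fun h => ⟨R0_mono hα m, R0_mono hβ n, fun _ _ r hr => ?_⟩⟩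
  · have := h.2.2 (by simp [hα.ne']) (by simp [hβ.ne']) 1 one_pos
    rwa [nr_mono hα m one_pos, nr_mono hβ n one_pos] at this
  · rwa [nr_mono hα m hr, nr_mono hβ n hr]

/-- all alive states have the exponent `a` -/
lemma Z_mono (ht : ∀ e, 0 < t e) {a : ℕ}
    (ha : ∀ w ∈ Icc A' C', ∀ k, Kw c0 c w = some k → ((k + M) / 4).toNat = a)
    {w : Finset (ℤ × ℤ)} (hw : w ∈ Icc A' C') {k : ℤ} (hk : Kw c0 c w = some k) :
    ∃ α : ℝ, 0 < α ∧ Z c0 c t M A' C' = Polynomial.C α * X ^ a := by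
  refine ⟨_, ha w hw k hk ▸ Z_pos (M := M) ht hw hk, ?_⟩
  ext n
  rw [coeff_C_mul, coeff_X_pow]
  by_cases hn : n = a
  · simp [hn]
  · rw [if_neg hn, mul_zero]
    by_contra h0
    obtain ⟨w', hw', k', hk', e⟩ := Z_alive h0
    exact hn (e.symm.trans (ha w' hw' k' hk'))

/-- two alive states which agree at a third label -/
lemma agree (ht : ∀ e, 0 < t e) (hx : FirstO c0 c A C x)
    (IH : ∀ v ∈ C \ A, St c0 c t M (insert v A) C ∧ St c0 c t M A (C.erase v)) {a b : ℕ}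
    (ha : ∀ w ∈ Icc A C, ∀ k, Kw c0 c w = some k → x ∈ w → ((k + M) / 4).toNat = a)
    (hb : ∀ w ∈ Icc A C, ∀ k, Kw c0 c w = some k → x ∉ w → ((k + M) / 4).toNat = b)
    {P Q : Finset (ℤ × ℤ)} (hP : P ∈ Icc A C) (hQ : Q ∈ Icc A C) {k l : ℤ}
    (hk : Kw c0 c P = some k) (hl : Kw c0 c Q = some l) (hxP : x ∈ P) (hxQ : x ∉ Q)
    (hv : v ∈ C \ A) (hvx : v ≠ x) (hPQ : v ∈ P ↔ v ∈ Q) : b ≤ a ∧ a ≤ b + 1 := by
  rw [mem_Icc] at hP hQ
  by_cases hvP : v ∈ P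
  · have h1 := (IH v hv).1.2.1 x (hx.left hv hvx)
    obtain ⟨α, hα, e1⟩ := Z_mono (M := M) (A' := insert x (insert v A)) (C' := C) ht
      (fun w hw k hk => ha w (mem_Icc.2 ⟨fun e he => (mem_Icc.1 hw).1
        (mem_insert_of_mem (mem_insert_of_mem he)), (mem_Icc.1 hw).2⟩) k hk
        ((mem_Icc.1 hw).1 (mem_insert_self _ _)))
      (mem_Icc.2 ⟨insert_subset hxP (insert_subset hvP hP.1), hP.2⟩) hk
    obtain ⟨β, hβ, e2⟩ := Z_mono (M := M) (A' := insert v A) (C' := C.erase x) ht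
      (fun w hw k hk => hb w (mem_Icc.2 ⟨fun e he => (mem_Icc.1 hw).1 (mem_insert_of_mem he),
        (mem_Icc.1 hw).2.trans (erase_subset _ _)⟩) k hk
        fun hxw => notMem_erase x C ((mem_Icc.1 hw).2 hxw))
      (mem_Icc.2 ⟨insert_subset (hPQ.1 hvP) hQ.1, subset_erase.2 ⟨hQ.2, hxQ⟩⟩) hl
    rw [e1, e2, IL_mono hα hβ] at h1
    exact h1
  · have h1 := (IH v hv).2.2.1 x (hx.right hvx)
    obtain ⟨α, hα, e1⟩ := Z_mono (M := M) (A' := insert x A) (C' := C.erase v) ht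
      (fun w hw k hk => ha w (mem_Icc.2 ⟨fun e he => (mem_Icc.1 hw).1 (mem_insert_of_mem he),
        (mem_Icc.1 hw).2.trans (erase_subset _ _)⟩) k hk
        ((mem_Icc.1 hw).1 (mem_insert_self _ _)))
      (mem_Icc.2 ⟨insert_subset hxP hP.1, subset_erase.2 ⟨hP.2, hvP⟩⟩) hk
    obtain ⟨β, hβ, e2⟩ := Z_mono (M := M) (A' := A) (C' := (C.erase v).erase x) ht
      (fun w hw k hk => hb w (mem_Icc.2 ⟨(mem_Icc.1 hw).1, (mem_Icc.1 hw).2.trans
        ((erase_subset _ _).trans (erase_subset _ _))⟩) k hk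
        fun hxw => notMem_erase x _ ((mem_Icc.1 hw).2 hxw))
      (mem_Icc.2 ⟨hQ.1, subset_erase.2 ⟨subset_erase.2 ⟨hQ.2, fun h => hvP (hPQ.2 h)⟩, hxQ⟩⟩) hl
    rw [e1, e2, IL_mono hα hβ] at h1
    exact h1

/-- two states which differ at every random label are opposite -/
lemma eq_cpl {P Q : Finset (ℤ × ℤ)} (hQ : Q ∈ Icc A C)
    (h : ∀ v ∈ C \ A, (v ∈ P ↔ v ∉ Q)) : Q = cpl A C P := by
  rw [mem_Icc] at hQ
  ext v
  simp only [cpl, mem_union, mem_sdiff]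
  refine ⟨fun hv => ?_, fun hv => ?_⟩
  · by_cases hA : v ∈ A
    · exact Or.inl hA
    · exact Or.inr ⟨hQ.2 hv, fun hp => (h v (mem_sdiff.2 ⟨hQ.2 hv, hA⟩)).1 hp hv⟩
  · rcases hv with hv | ⟨hC, hp⟩
    · exact hQ.1 hv
    · by_contra hq
      exact hp ((h v (mem_sdiff.2 ⟨hC, fun hA => hq (hQ.1 hA)⟩)).2 hq)

/-- the exponents in the locked case -/
lemma near (ht : ∀ e, 0 < t e) (h : PN c0 c A C) (hS : Sh c0 c M A C) (hx : FirstO c0 c A C x)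
    (hz : FirstI c0 c A C z) (hxz : x ≠ z)
    (IH : ∀ v ∈ C \ A, St c0 c t M (insert v A) C ∧ St c0 c t M A (C.erase v)) {a b : ℕ}
    (ha : ∀ w ∈ Icc A C, ∀ k, Kw c0 c w = some k → x ∈ w → ((k + M) / 4).toNat = a)
    (hb : ∀ w ∈ Icc A C, ∀ k, Kw c0 c w = some k → x ∉ w → ((k + M) / 4).toNat = b)
    {P Q : Finset (ℤ × ℤ)} (hP : P ∈ Icc A C) (hQ : Q ∈ Icc A C) {k l : ℤ}
    (hk : Kw c0 c P = some k) (hl : Kw c0 c Q = some l) (hxP : x ∈ P) (hxQ : x ∉ Q) :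
    b ≤ a ∧ a ≤ b + 1 := by
  by_cases hex : ∃ P ∈ Icc A C, ∃ Q ∈ Icc A C, (∃ k, Kw c0 c P = some k) ∧
      (∃ l, Kw c0 c Q = some l) ∧ x ∈ P ∧ x ∉ Q ∧ ∃ v ∈ C \ A, v ≠ x ∧ (v ∈ P ↔ v ∈ Q)
  · obtain ⟨P', hP', Q', hQ', ⟨k', hk'⟩, ⟨l', hl'⟩, hxP', hxQ', v, hv, hvx, hPQ⟩ := hex
    exact agree ht hx IH ha hb hP' hQ' hk' hl' hxP' hxQ' hv hvx hPQ
  · have key : ∀ P ∈ Icc A C, ∀ Q ∈ Icc A C, (∃ k, Kw c0 c P = some k) →
        (∃ l, Kw c0 c Q = some l) → x ∈ P → x ∉ Q → ∀ v ∈ C \ A, (v ∈ P ↔ v ∉ Q) := by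
      intro P hP Q hQ hkP hlQ hxP hxQ v hv
      by_cases hvx : v = x
      · subst hvx; exact ⟨fun _ => hxQ, fun _ => hxP⟩
      · by_contra hc
        exact hex ⟨P, hP, Q, hQ, hkP, hlQ, hxP, hxQ, v, hv, hvx, by tauto⟩
    have hQP := eq_cpl hQ (key P hP Q hQ ⟨k, hk⟩ ⟨l, hl⟩ hxP hxQ)
    have hall : ∀ w ∈ Icc A C, ∀ j, Kw c0 c w = some j → w = P ∨ w = cpl A C P := by
      intro w hw j hj
      by_cases hxw : x ∈ w
      · left
        have h1 := key w hw Q hQ ⟨j, hj⟩ ⟨l, hl⟩ hxw hxQ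
        have h2 := key P hP Q hQ ⟨k, hk⟩ ⟨l, hl⟩ hxP hxQ
        rw [mem_Icc] at hw hP
        ext v
        by_cases hv : v ∈ C \ A
        · rw [h1 v hv, h2 v hv]
        · refine ⟨fun hvw => hP.1 ?_, fun hvP => hw.1 ?_⟩
          · by_contra hA; exact hv (mem_sdiff.2 ⟨hw.2 hvw, hA⟩)
          · by_contra hA; exact hv (mem_sdiff.2 ⟨hP.2 hvP, hA⟩)
      · exact Or.inr (eq_cpl hw (key P hP w hw ⟨k, hk⟩ ⟨j, hj⟩ hxP hxw))
    rcases lock_two h hx hz hxz hP hk (hQP ▸ hl) hall with ⟨_, _, h3⟩ | ⟨h3, _⟩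
    · have e1 := ha P hP k hk hxP
      have e2 := hb Q hQ l hl hxQ
      have e3 := hS Q hQ l hl
      omega
    · exact absurd hxP h3

/-- the four sub-cubes -/
lemma sub4 {w : Finset (ℤ × ℤ)} (hw : w ∈ Icc A C) :
    (x ∈ w → z ∉ w → w ∈ Icc (insert x A) (C.erase z)) ∧
    (x ∈ w → z ∈ w → w ∈ Icc (insert z (insert x A)) C) ∧
    (x ∉ w → z ∉ w → w ∈ Icc A ((C.erase x).erase z)) ∧
    (x ∉ w → z ∈ w → w ∈ Icc (insert z A) (C.erase x)) := by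
  rw [mem_Icc] at hw
  refine ⟨fun h1 h2 => mem_Icc.2 ⟨insert_subset h1 hw.1, subset_erase.2 ⟨hw.2, h2⟩⟩,
    fun h1 h2 => mem_Icc.2 ⟨insert_subset h2 (insert_subset h1 hw.1), hw.2⟩,
    fun h1 h2 => mem_Icc.2 ⟨hw.1, subset_erase.2 ⟨subset_erase.2 ⟨hw.2, h1⟩, h2⟩⟩,
    fun h1 h2 => mem_Icc.2 ⟨insert_subset h2 hw.1, subset_erase.2 ⟨hw.2, h1⟩⟩⟩

/-- common part: if the alive states with `x` open are counted by `P` and those with `x` closed
by `Q`, and the exponents of `P * Q` have the parity `≠ e`, then `P`, `Q` are monomials -/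
lemma core (ht : ∀ e, 0 < t e) (h : PN c0 c A C) (hS : Sh c0 c M A C) (hx : FirstO c0 c A C x)
    (hz : FirstI c0 c A C z) (hxz : x ≠ z)
    (IH : ∀ v ∈ C \ A, St c0 c t M (insert v A) C ∧ St c0 c t M A (C.erase v))
    {A₁ C₁ A₂ C₂ : Finset (ℤ × ℤ)} (s₁ : ∀ w ∈ Icc A₁ C₁, w ∈ Icc A C ∧ x ∈ w)
    (s₂ : ∀ w ∈ Icc A₂ C₂, w ∈ Icc A C ∧ x ∉ w)
    (u₁ : ∀ w ∈ Icc A C, (∃ k, Kw c0 c w = some k) → x ∈ w → w ∈ Icc A₁ C₁)
    (u₂ : ∀ w ∈ Icc A C, (∃ k, Kw c0 c w = some k) → x ∉ w → w ∈ Icc A₂ C₂)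
    (r₁ : R0 (Z c0 c t M A₁ C₁)) (r₂ : R0 (Z c0 c t M A₂ C₂))
    (n₁ : Z c0 c t M A₁ C₁ ≠ 0) (n₂ : Z c0 c t M A₂ C₂ ≠ 0) {e : ℕ} (he : e < 2)
    (hp : ∀ k, k % 2 = e → (Z c0 c t M A₁ C₁ * Z c0 c t M A₂ C₂).coeff k ≤ 0) :
    ∃ (a b : ℕ) (α β : ℝ), 0 < α ∧ 0 < β ∧ Z c0 c t M A₁ C₁ = Polynomial.C α * X ^ a ∧
      Z c0 c t M A₂ C₂ = Polynomial.C β * X ^ b ∧ b ≤ a ∧ a ≤ b + 1 ∧ (a + b) % 2 ≠ e := by
  have g₁ := Z_nonneg (c0 := c0) (c := c) (M := M) (A := A₁) (C := C₁) ht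
  have g₂ := Z_nonneg (c0 := c0) (c := c) (M := M) (A := A₂) (C := C₂) ht
  obtain ⟨i, hi⟩ : ∃ i, (Z c0 c t M A₁ C₁).coeff i ≠ 0 := by
    by_contra hc; push Not at hc; exact n₁ (Polynomial.ext (by simpa using hc))
  obtain ⟨j, hj⟩ : ∃ j, (Z c0 c t M A₂ C₂).coeff j ≠ 0 := by
    by_contra hc; push Not at hc; exact n₂ (Polynomial.ext (by simpa using hc))
  obtain ⟨a, α, hα, e₁⟩ := mono_of_par r₁ n₁ fun p q hp' hq' => by
    have h1 := par g₁ g₂ hp hp' hj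
    have h2 := par g₁ g₂ hp hq' hj
    omega
  obtain ⟨b, β, hβ, e₂⟩ := mono_of_par r₂ n₂ fun p q hp' hq' => by
    have h1 := par g₁ g₂ hp hi hp'
    have h2 := par g₁ g₂ hp hi hq'
    omega
  have ha : ∀ w ∈ Icc A C, ∀ k, Kw c0 c w = some k → x ∈ w → ((k + M) / 4).toNat = a := by
    intro w hw k hk hxw
    have h1 := Z_pos (M := M) ht (u₁ w hw ⟨k, hk⟩ hxw) hk
    rw [e₁, coeff_C_mul, coeff_X_pow] at h1
    by_contra hne
    rw [if_neg hne] at h1; simp at h1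
  have hb : ∀ w ∈ Icc A C, ∀ k, Kw c0 c w = some k → x ∉ w → ((k + M) / 4).toNat = b := by
    intro w hw k hk hxw
    have h1 := Z_pos (M := M) ht (u₂ w hw ⟨k, hk⟩ hxw) hk
    rw [e₂, coeff_C_mul, coeff_X_pow] at h1
    by_contra hne
    rw [if_neg hne] at h1; simp at h1
  obtain ⟨P, hP, k, hk, -⟩ := Z_alive hi
  obtain ⟨Q, hQ, l, hl, -⟩ := Z_alive hj
  obtain ⟨h1, h2⟩ := near ht h hS hx hz hxz IH ha hb (s₁ P hP).1 (s₂ Q hQ).1 hk hl (s₁ P hP).2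
    (s₂ Q hQ).2
  refine ⟨a, b, α, β, hα, hβ, e₁, e₂, h1, h2, par g₁ g₂ hp ?_ ?_⟩
  · rw [e₁]; simp [hα.ne']
  · rw [e₂]; simp [hβ.ne']

/-- the four partition functions are real-rooted -/
lemma r4 (hx : FirstO c0 c A C x) (hz : FirstI c0 c A C z) (hxz : x ≠ z)
    (IH : ∀ v ∈ C \ A, St c0 c t M (insert v A) C ∧ St c0 c t M A (C.erase v)) :
    R0 (Z c0 c t M (insert x A) (C.erase z)) ∧ R0 (Z c0 c t M (insert z (insert x A)) C) ∧
    R0 (Z c0 c t M A ((C.erase x).erase z)) ∧ R0 (Z c0 c t M (insert z A) (C.erase x)) := by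
  have h1 := (IH x hx.1).1.2.2 z (hz.left hx.1 hxz)
  have h2 := (IH x hx.1).2.2.2 z (hz.right hxz)
  exact ⟨h1.1, h1.2.1, h2.1, h2.2.1⟩

lemma IL_triv {P Q : ℝ[X]} (hP : R0 P) (hQ : R0 Q) (h : P = 0 ∨ Q = 0) : IL P Q :=
  ⟨hP, hQ, fun h1 h2 => absurd h (by tauto)⟩

end LockZAux

open LockZAux

/-- **locked case, diagonal** -/
theorem lock1 (hA : ALTHyp) (ht : ∀ e, 0 < t e) (h : PN c0 c A C) (hS : Sh c0 c M A C)
    (hx : FirstO c0 c A C x) (hz : FirstI c0 c A C z) (hxz : x ≠ z)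
    (IH : ∀ v ∈ C \ A, St c0 c t M (insert v A) C ∧ St c0 c t M A (C.erase v))
    (h1 : Z c0 c t M (insert z (insert x A)) C = 0)
    (h2 : Z c0 c t M A ((C.erase x).erase z) = 0) :
    IL (Z c0 c t M (insert x A) (C.erase z)) (Z c0 c t M (insert z A) (C.erase x)) := by
  obtain ⟨r1, -, -, r4⟩ := r4 hx hz hxz IH
  by_cases h0 : Z c0 c t M (insert x A) (C.erase z) = 0 ∨ Z c0 c t M (insert z A) (C.erase x) = 0
  · exact IL_triv r1 r4 h0
  · push Not at h0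
    obtain ⟨a, b, α, β, hα, hβ, e1, e2, hab, hab', -⟩ := core ht h hS hx hz hxz IH
      (A₁ := insert x A) (C₁ := C.erase z) (A₂ := insert z A) (C₂ := C.erase x)
      (fun w hw => ⟨mem_Icc.2 ⟨(subset_insert _ _).trans (mem_Icc.1 hw).1,
        (mem_Icc.1 hw).2.trans (erase_subset _ _)⟩, (mem_Icc.1 hw).1 (mem_insert_self _ _)⟩)
      (fun w hw => ⟨mem_Icc.2 ⟨(subset_insert _ _).trans (mem_Icc.1 hw).1,
        (mem_Icc.1 hw).2.trans (erase_subset _ _)⟩,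
          fun hxw => notMem_erase x C ((mem_Icc.1 hw).2 hxw)⟩)
      (fun w hw hk hxw => (sub4 hw).1 hxw fun hzw => by
        obtain ⟨k, hk⟩ := hk
        have := Z_pos (M := M) ht ((sub4 (z := z) hw).2.1 hxw hzw) hk
        rw [h1] at this; simp at this)
      (fun w hw hk hxw => (sub4 hw).2.2.2 hxw (by
        by_contra hzw
        obtain ⟨k, hk⟩ := hk
        have := Z_pos (M := M) ht ((sub4 (z := z) hw).2.2.1 hxw hzw) hk
        rw [h2] at this; simp at this))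
      r1 r4 h0.1 h0.2 (e := 0) (by norm_num) (fun k hk => by
        have := hA c0 c A C h x z hx hz hxz t ht M hS k
        rw [h1, zero_mul, sub_zero, pow_succ, neg_one_pow_eq_pow_mod_two, hk] at this
        simpa using this)
    rw [e1, e2, IL_mono hα hβ]
    exact ⟨hab, hab'⟩

/-- **locked case, off-diagonal** -/
theorem lock2 (hA : ALTHyp) (ht : ∀ e, 0 < t e) (h : PN c0 c A C) (hS : Sh c0 c M A C)
    (hx : FirstO c0 c A C x) (hz : FirstI c0 c A C z) (hxz : x ≠ z)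
    (IH : ∀ v ∈ C \ A, St c0 c t M (insert v A) C ∧ St c0 c t M A (C.erase v))
    (h1 : Z c0 c t M (insert x A) (C.erase z) = 0)
    (h2 : Z c0 c t M (insert z A) (C.erase x) = 0) :
    IL (Z c0 c t M (insert z (insert x A)) C) (Z c0 c t M A ((C.erase x).erase z)) ∧
    IL (Z c0 c t M A ((C.erase x).erase z)) (Z c0 c t M (insert z (insert x A)) C) := by
  obtain ⟨-, r2, r3, -⟩ := r4 hx hz hxz IH
  by_cases h0 : Z c0 c t M (insert z (insert x A)) C = 0 ∨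
      Z c0 c t M A ((C.erase x).erase z) = 0
  · exact ⟨IL_triv r2 r3 h0, IL_triv r3 r2 h0.symm⟩
  · push Not at h0
    obtain ⟨a, b, α, β, hα, hβ, e1, e2, hab, hab', hpar⟩ := core ht h hS hx hz hxz IH
      (A₁ := insert z (insert x A)) (C₁ := C) (A₂ := A) (C₂ := (C.erase x).erase z)
      (fun w hw => ⟨mem_Icc.2 ⟨(subset_insert _ _).trans ((subset_insert _ _).trans
        (mem_Icc.1 hw).1), (mem_Icc.1 hw).2⟩,
          (mem_Icc.1 hw).1 (mem_insert_of_mem (mem_insert_self _ _))⟩)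
      (fun w hw => ⟨mem_Icc.2 ⟨(mem_Icc.1 hw).1, (mem_Icc.1 hw).2.trans
        ((erase_subset _ _).trans (erase_subset _ _))⟩,
          fun hxw => notMem_erase x C (erase_subset _ _ ((mem_Icc.1 hw).2 hxw))⟩)
      (fun w hw hk hxw => (sub4 hw).2.1 hxw (by
        by_contra hzw
        obtain ⟨k, hk⟩ := hk
        have := Z_pos (M := M) ht ((sub4 (z := z) hw).1 hxw hzw) hk
        rw [h1] at this; simp at this))
      (fun w hw hk hxw => (sub4 hw).2.2.1 hxw fun hzw => by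
        obtain ⟨k, hk⟩ := hk
        have := Z_pos (M := M) ht ((sub4 (z := z) hw).2.2.2 hxw hzw) hk
        rw [h2] at this; simp at this)
      r2 r3 h0.1 h0.2 (e := 1) (by norm_num) (fun k hk => by
        have := hA c0 c A C h x z hx hz hxz t ht M hS k
        rw [h1, zero_mul, zero_sub, pow_succ, neg_one_pow_eq_pow_mod_two, hk] at this
        simpa using this)
    rw [e1, e2, IL_mono hα hβ, IL_mono hβ hα]
    omega

end Pool.Agent.ZM
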